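import Mathlib
import Pool.Agent.P.MP_eccc2e_al.Link

-- part Pool.Agent.P.MP_eccc2e_al.JM
section

/-! Jucys-Murphy elements and their joint spectrum (Okounkov-Vershik). -/

namespace Pool.Agent.P.MP_eccc2e_al

open Module Equiv

section
variable {n : ℕ} {V : Type} [AddCommGroup V] [Module ℂ V]
  (ρ : Representation ℂ (Perm (Fin n)) V)

/-- Jucys-Murphy element. -/
noncomputable def X (k : Fin n) : End ℂ V := ∑ j ∈ Finset.Iio k, ρ (swap j k)

theorem conj_swap (g : Perm (Fin n)) (a b : Fin n) :
    ρ g * ρ (swap a b) = ρ (swap (g a) (g b)) * ρ g := by
  rw [← map_mul, ← map_mul, mul_swap_eq_swap_mul]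

theorem X_comm (g : Perm (Fin n)) (k : Fin n) (hk : g k = k) (h : ∀ j, j < k ↔ g j < k) :
    ρ g * X ρ k = X ρ k * ρ g := by
  unfold X
  rw [Finset.mul_sum, Finset.sum_mul]
  refine Finset.sum_equiv g (fun j => by simpa using h j) fun j _ => ?_
  rw [conj_swap, hk]

theorem X_comm_swap (a b k : Fin n) (h : (a < k ∧ b < k) ∨ (k < a ∧ k < b)) :
    ρ (swap a b) * X ρ k = X ρ k * ρ (swap a b) := by
  apply X_comm
  · apply swap_apply_of_ne_of_ne <;> rcases h with h | h <;> omega
  · intro j
    rw [swap_apply_def]
    split_ifs <;> rcases h with h | h <;> omega

theorem X_comm_X (k l : Fin n) : X ρ k * X ρ l = X ρ l * X ρ k := by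
  wlog h : k < l generalizing k l
  · rcases eq_or_lt_of_le (not_lt.mp h) with h | h
    · rw [h]
    · exact (this l k h).symm
  conv_lhs => rw [X]
  conv_rhs => rw [X.eq_1 ρ k]
  rw [Finset.mul_sum, Finset.sum_mul]
  refine Finset.sum_congr rfl fun j hj => X_comm_swap ρ _ _ _ (Or.inl ⟨?_, h⟩)
  exact (Finset.mem_Iio.mp hj).trans h

theorem swap_sq (a b : Fin n) : ρ (swap a b) * ρ (swap a b) = 1 := by
  rw [← map_mul, swap_mul_self, map_one]

theorem X_succ (i i' : Fin n) (h : i'.val = i.val + 1) :
    X ρ i' * ρ (swap i i') = ρ (swap i i') * X ρ i + 1 := by
  have hI : Finset.Iio i' = insert i (Finset.Iio i) := by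
    ext j; simp only [Finset.mem_Iio, Finset.mem_insert]; omega
  unfold X
  rw [hI, Finset.sum_insert (by simp), add_mul, swap_sq, add_comm, Finset.mul_sum, Finset.sum_mul]
  congr 1
  refine Finset.sum_congr rfl fun j hj => ?_
  have hj := Finset.mem_Iio.mp hj
  rw [conj_swap ρ (swap i i'), swap_apply_left, swap_apply_of_ne_of_ne (by omega) (by omega)]

theorem X_succ' (i i' : Fin n) (h : i'.val = i.val + 1) :
    X ρ i * ρ (swap i i') = ρ (swap i i') * X ρ i' - 1 := by
  have h1 := X_succ ρ i i' h
  have h2 := swap_sq ρ i i'
  set s := ρ (swap i i')
  have : s * X ρ i' = s * (X ρ i' * s) * s := by rw [mul_assoc, mul_assoc, h2, mul_one]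
  rw [this, h1, mul_add, ← mul_assoc, h2, add_mul, mul_one, h2, one_mul, add_sub_cancel_right]

end

/-- The local rules satisfied by the joint spectrum. -/
structure OV (n : ℕ) (S : Set (ℕ → ℂ)) : Prop where
  p0 : ∀ a ∈ S, 0 < n → a 0 = 0
  p1 : ∀ a ∈ S, ∀ i, i + 1 < n → a (i + 1) ≠ a i
  p2 : ∀ a ∈ S, ∀ i, i + 1 < n → a (i + 1) ≠ a i + 1 → a (i + 1) ≠ a i - 1 →
    a ∘ swap i (i + 1) ∈ S
  p3 : ∀ a ∈ S, ∀ i, i + 2 < n → a (i + 2) = a i → a (i + 1) ≠ a i + 1 ∧ a (i + 1) ≠ a i - 1

section
variable {n : ℕ} {V : Type} [NormedAddCommGroup V] [InnerProductSpace ℂ V]
  (ρ : Representation ℂ (Perm (Fin n)) V)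
  (hρ : ∀ g u w, inner ℂ (ρ g u) w = inner ℂ u (ρ g⁻¹ w))

/-- joint spectrum -/
def Spec : Set (ℕ → ℂ) := {a | ∃ v : V, v ≠ 0 ∧ ∀ k : Fin n, X ρ k v = a k • v}

include hρ

theorem X_adj (k : Fin n) (u w : V) : inner ℂ (X ρ k u) w = inner ℂ u (X ρ k w) := by
  unfold X
  simp only [LinearMap.sum_apply, sum_inner, inner_sum, hρ, swap_inv]

theorem eig_real (k : Fin n) (v : V) (hv : v ≠ 0) (a : ℂ) (h : X ρ k v = a • v) :
    (starRingEnd ℂ) a = a := by
  have := X_adj ρ hρ k v v
  rw [h, inner_smul_left, inner_smul_right] at this
  exact mul_right_cancel₀ (inner_self_ne_zero.mpr hv) this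

omit hρ in
theorem loc (i i' : Fin n) (h : i'.val = i.val + 1) (v : V) (a b : ℂ) (ha : X ρ i v = a • v)
    (hb : X ρ i' v = b • v) :
    X ρ i (ρ (swap i i') v) = b • ρ (swap i i') v - v ∧
    X ρ i' (ρ (swap i i') v) = a • ρ (swap i i') v + v := by
  have h1 := congrArg (fun f : End ℂ V => f v) (X_succ ρ i i' h)
  have h2 := congrArg (fun f : End ℂ V => f v) (X_succ' ρ i i' h)
  simp only [End.mul_apply, LinearMap.add_apply, LinearMap.sub_apply, End.one_apply, ha, hb,
    map_smul] at h1 h2
  exact ⟨h2, h1⟩

theorem loc_pm (i i' : Fin n) (h : i'.val = i.val + 1) (v : V) (hv : v ≠ 0) (a d : ℂ)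
    (hd : d = 1 ∨ d = -1) (ha : X ρ i v = a • v) (hb : X ρ i' v = (a + d) • v) :
    ρ (swap i i') v = d • v := by
  obtain ⟨h1, -⟩ := loc ρ i i' h v a _ ha hb
  have hss : ρ (swap i i') (ρ (swap i i') v) = v := by
    have := congrArg (fun f : End ℂ V => f v) (swap_sq ρ i i')
    simpa using this
  have hd2 : d * d = 1 := by rcases hd with rfl | rfl <;> simp
  have hdr : (starRingEnd ℂ) d = d := by rcases hd with rfl | rfl <;> simp
  have har := eig_real ρ hρ i v hv a ha
  set s := ρ (swap i i') with hs
  set w := d • s v - v with hw
  have hXw : X ρ i w = (a + d) • w := by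
    rw [hw, map_sub, map_smul, h1, ha]; module
  have hwv : inner ℂ w v = 0 := by
    have := X_adj ρ hρ i w v
    rw [hXw, ha, inner_smul_left, inner_smul_right, map_add, har, hdr] at this
    have h3 : d * inner ℂ w v = 0 := by linear_combination this
    refine (mul_eq_zero.mp h3).resolve_left ?_
    rintro rfl; simp at hd2
  have hsw : s w = (-d) • w := by
    rw [hw, map_sub, map_smul, hss, smul_sub, smul_smul, neg_mul, hd2]; module
  have hww : inner ℂ w w = 0 := by
    have h4 := hρ (swap i i') w v
    rw [swap_inv, ← hs, hsw, inner_smul_left, hwv, mul_zero] at h4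
    conv_lhs => rw [show inner ℂ w w = inner ℂ w (d • s v - v) from rfl]
    rw [inner_sub_right, inner_smul_right, ← h4, hwv]; simp
  have hw0 : d • s v = v := sub_eq_zero.mp (inner_self_eq_zero.mp hww)
  calc s v = (d * d) • s v := by rw [hd2, one_smul]
    _ = d • v := by rw [← smul_smul, hw0]

theorem spec_OV : OV n (Spec ρ) := by
  constructor
  · rintro a ⟨v, hv, ha⟩ hn
    have := ha ⟨0, hn⟩
    have hI : Finset.Iio (⟨0, hn⟩ : Fin n) = ∅ := by
      ext j; simp [Fin.lt_def]
    rw [X, hI] at this
    simpa [hv] using this.symm
  · rintro a ⟨v, hv, ha⟩ i hi hE
    have hai := ha ⟨i, by omega⟩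
    obtain ⟨h1, -⟩ := loc ρ ⟨i, by omega⟩ ⟨i + 1, hi⟩ rfl v _ _ hai (ha _)
    have := X_adj ρ hρ ⟨i, by omega⟩ v (ρ (swap ⟨i, by omega⟩ ⟨i + 1, hi⟩) v)
    rw [h1, hai, inner_smul_left, eig_real ρ hρ _ v hv _ hai, inner_sub_right,
      inner_smul_right] at this
    simp only [hE] at this
    exact inner_self_ne_zero.mpr hv (by linear_combination this)
  · rintro a ⟨v, hv, ha⟩ i hi hp hm
    obtain ⟨h1, h2⟩ := loc ρ ⟨i, by omega⟩ ⟨i + 1, hi⟩ rfl v _ _ (ha _) (ha _)
    have hss := congrArg (fun f : End ℂ V => f v) (swap_sq ρ ⟨i, by omega⟩ ⟨i + 1, hi⟩)
    have hcs := X_comm_swap ρ ⟨i, by omega⟩ ⟨i + 1, hi⟩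
    simp only [End.mul_apply, End.one_apply] at hss
    set s := ρ (swap ⟨i, by omega⟩ ⟨i + 1, hi⟩) with hs
    simp only at h1 h2
    refine ⟨(a (i + 1) - a i) • s v - v, fun h0 => ?_, fun k => ?_⟩
    · have h3 := sub_eq_zero.mp h0
      have h4 := congrArg s h3
      rw [map_smul, hss] at h4
      rw [← h4, smul_smul] at h3
      have h5 : ((a (i + 1) - a i) * (a (i + 1) - a i) - 1) • v = 0 := by
        rw [sub_smul, h3, one_smul, sub_self]
      have h6 := (smul_eq_zero.mp h5).resolve_right hv
      have h7 : (a (i + 1) - (a i + 1)) * (a (i + 1) - (a i - 1)) = 0 := by linear_combination h6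
      rcases mul_eq_zero.mp h7 with h | h
      · exact hp (sub_eq_zero.mp h)
      · exact hm (sub_eq_zero.mp h)
    · by_cases hk : k.val = i
      · obtain rfl : k = ⟨i, Nat.lt_of_succ_lt hi⟩ := Fin.ext hk
        rw [map_sub, map_smul, h1, ha]
        simp only [Function.comp_apply, swap_apply_left]; module
      by_cases hk' : k.val = i + 1
      · obtain rfl : k = ⟨i + 1, hi⟩ := Fin.ext hk'
        rw [map_sub, map_smul, h2, ha]
        simp only [Function.comp_apply, swap_apply_right]; module
      have h3 := congrArg (fun f : End ℂ V => f v)
        (hcs k (by simp only [Fin.lt_def]; omega))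
      simp only [End.mul_apply, ha, map_smul] at h3
      rw [map_sub, map_smul, ← h3, ha]
      simp only [Function.comp_apply, swap_apply_of_ne_of_ne hk hk']; module
  · rintro a ⟨v, hv, ha⟩ i hi hE
    have key : ∀ d : ℂ, d = 1 ∨ d = -1 → a (i + 1) ≠ a i + d := by
      intro d hd h
      have h1 := loc_pm ρ hρ ⟨i, by omega⟩ ⟨i + 1, by omega⟩ rfl v hv (a i) d hd (ha _)
        (by rw [ha, ← h])
      have h2 := loc_pm ρ hρ ⟨i + 1, by omega⟩ ⟨i + 2, by omega⟩ rfl v hv (a (i + 1)) (-d)
        (by rcases hd with rfl | rfl <;> simp) (ha _) (by rw [ha]; simp only [hE, h]; simp)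
      set p : Fin n := ⟨i, by omega⟩
      set q : Fin n := ⟨i + 1, by omega⟩
      set r : Fin n := ⟨i + 2, by omega⟩
      have hpq : p ≠ q := by simp [p, q]
      have hpr : p ≠ r := by simp [p, r]
      have hqr : q ≠ r := by simp [q, r]
      have hb : swap p q * swap q r * swap p q = swap q r * swap p q * swap q r := by
        rw [mul_swap_eq_swap_mul (swap p q), mul_swap_eq_swap_mul (swap q r), mul_assoc, mul_assoc,
          swap_mul_self, swap_mul_self, swap_apply_right, swap_apply_left,
          swap_apply_of_ne_of_ne hpr.symm hqr.symm, swap_apply_of_ne_of_ne hpq hpr]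
      have h3 := congrArg (fun g => ρ g v) hb
      simp only [map_mul, End.mul_apply, h1, h2, map_smul, smul_smul] at h3
      have h4 : (2 * d ^ 3) • v = 0 := by
        have : (2 * d ^ 3) • v = (-d * (d * -d)) • v - (d * (-d * d)) • v := by module
        rw [this, h3, sub_self]
      have h5 := (smul_eq_zero.mp h4).resolve_right hv
      rcases hd with rfl | rfl <;> norm_num at h5
    exact ⟨key 1 (Or.inl rfl), by simpa [sub_eq_add_neg] using key (-1) (Or.inr rfl)⟩

omit hρ in
theorem exists_joint [FiniteDimensional ℂ V] (W : Submodule ℂ V) (hW : W ≠ ⊥)
    (hX : ∀ k, ∀ w ∈ W, X ρ k w ∈ W) :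
    ∃ a : ℕ → ℂ, ∃ v ∈ W, v ≠ 0 ∧ ∀ k : Fin n, X ρ k v = a k • v := by
  have key : ∀ s : Finset (Fin n), ∃ (a : Fin n → ℂ) (U : Submodule ℂ V), U ≠ ⊥ ∧ U ≤ W ∧
      (∀ k, ∀ w ∈ U, X ρ k w ∈ U) ∧ ∀ k ∈ s, ∀ w ∈ U, X ρ k w = a k • w := by
    intro s
    induction s using Finset.induction_on with
    | empty => exact ⟨0, W, hW, le_rfl, hX, by simp⟩
    | insert k s hk ih =>
      obtain ⟨a, U, hU0, hUW, hUX, hUa⟩ := ih
      have : Nontrivial U := Submodule.nontrivial_iff_ne_bot.mpr hU0
      obtain ⟨c, hc⟩ := End.exists_eigenvalue ((X ρ k).restrict (hUX k))
      obtain ⟨w, hw⟩ := hc.exists_hasEigenvector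
      refine ⟨Function.update a k c, U ⊓ (X ρ k).eigenspace c, fun h => ?_,
        inf_le_left.trans hUW, fun l u hu => ⟨hUX l u hu.1, ?_⟩, fun l hl u hu => ?_⟩
      · have h1 : (w : V) ∈ U ⊓ (X ρ k).eigenspace c := ⟨w.2, by
          have := congrArg Subtype.val hw.apply_eq_smul
          exact End.mem_eigenspace_iff.mpr this⟩
        rw [h] at h1
        exact hw.2 (Subtype.ext h1)
      · have h1 := End.mem_eigenspace_iff.mp hu.2
        have h2 := congrArg (fun f : End ℂ V => f u) (X_comm_X ρ k l)
        simp only [End.mul_apply, h1, map_smul] at h2
        exact End.mem_eigenspace_iff.mpr h2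
      · rcases Finset.mem_insert.mp hl with rfl | hl'
        · simpa using End.mem_eigenspace_iff.mp hu.2
        · rw [Function.update_of_ne (by rintro rfl; exact hk hl')]
          exact hUa l hl' u hu.1
  obtain ⟨a, U, hU0, hUW, -, hUa⟩ := key Finset.univ
  obtain ⟨v, hvU, hv⟩ := Submodule.exists_mem_ne_zero_of_ne_bot hU0
  exact ⟨fun k => if h : k < n then a ⟨k, h⟩ else 0, v, hUW hvU, hv, fun k => by
    simpa using hUa k (Finset.mem_univ _) v hvU⟩

end

end Pool.Agent.P.MP_eccc2e_al
end

-- part Pool.Agent.P.MP_eccc2e_al.OV
section

/-! From the local rules to the shape of the multiset of eigenvalues, and a finite search. -/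

namespace Pool.Agent.P.MP_eccc2e_al

open Equiv Finset

theorem OV.gap {n : ℕ} {S : Set (ℕ → ℂ)} (h : OV n S) (d : ℂ) (hd : d = 1 ∨ d = -1) (g : ℕ) :
    ∀ a ∈ S, ∀ p, 0 < g → p + g < n → a (p + g) = a p →
      ∃ r, p < r ∧ r < p + g ∧ a r = a p + d := by
  induction g using Nat.strong_induction_on with
  | _ g ih =>
  intro a ha p hg hn hE
  by_contra hne
  push Not at hne
  have hg1 : g ≠ 1 := by rintro rfl; exact h.p1 a ha p hn hE
  obtain ⟨g, rfl⟩ : ∃ g', g = g' + 2 := ⟨g - 2, by omega⟩
  by_cases hA : a (p + 1) = a p - d
  swap
  · have h1 := hne (p + 1) (by omega) (by omega)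
    have h2 := h.p2 a ha p (by omega) (by rcases hd with rfl | rfl; exact h1; simpa using hA)
      (by rcases hd with rfl | rfl; exact hA; simpa [sub_eq_add_neg] using h1)
    obtain ⟨r, r1, r2, r3⟩ := ih (g + 1) (by omega) _ h2 (p + 1) (by omega) (by omega) (by
      simp only [Function.comp_apply, swap_apply_right]
      rw [swap_apply_of_ne_of_ne (by omega) (by omega), ← hE]; congr 1; omega)
    simp only [Function.comp_apply, swap_apply_right] at r3
    rw [swap_apply_of_ne_of_ne (by omega) (by omega)] at r3
    exact hne r (by omega) (by omega) r3
  by_cases hB : a (p + g + 1) = a p - d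
  swap
  · have h1 := hne (p + g + 1) (by omega) (by omega)
    have hE' : a (p + g + 1 + 1) = a p := hE
    have h2 := h.p2 a ha (p + g + 1) (by omega)
      (by rw [hE']; intro h3
          rcases hd with rfl | rfl
          · exact hB (by rw [h3]; ring)
          · exact h1 (by rw [h3]; ring))
      (by rw [hE']; intro h3
          rcases hd with rfl | rfl
          · exact h1 (by rw [h3]; ring)
          · exact hB (by rw [h3]; ring))
    obtain ⟨r, r1, r2, r3⟩ := ih (g + 1) (by omega) _ h2 p (by omega) (by omega) (by
      simp only [Function.comp_apply]
      rw [← add_assoc, swap_apply_left, swap_apply_of_ne_of_ne (by omega) (by omega), hE'])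
    simp only [Function.comp_apply] at r3
    rw [swap_apply_of_ne_of_ne (by omega) (by omega),
      swap_apply_of_ne_of_ne (by omega) (by omega)] at r3
    exact hne r (by omega) (by omega) r3
  rcases Nat.eq_zero_or_pos g with rfl | hg0
  · have := h.p3 a ha p hn hE
    rcases hd with rfl | rfl
    · exact this.2 hA
    · exact this.1 (by simpa using hA)
  · obtain ⟨r, r1, r2, r3⟩ := ih g (by omega) a ha (p + 1) hg0 (by omega) (by
      rw [hA, ← hB]; congr 1; omega)
    obtain ⟨r, rfl⟩ : ∃ r', r = p + r' := ⟨r - p, by omega⟩
    obtain ⟨s, s1, s2, s3⟩ := ih r (by omega) a ha p (by omega) (by omega) (by rw [r3, hA]; ring)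
    exact hne s s1 (by omega) s3

theorem OV.adj {n : ℕ} {S : Set (ℕ → ℂ)} (h : OV n S) (q : ℕ) :
    ∀ a ∈ S, q + 1 < n → ∃ r, r ≤ q ∧ (a (q + 1) = a r + 1 ∨ a (q + 1) = a r - 1) := by
  induction q with
  | zero =>
    intro a ha hn
    by_contra hne
    push Not at hne
    have h1 := h.p0 _ (h.p2 a ha 0 hn (hne 0 le_rfl).1 (hne 0 le_rfl).2) (by omega)
    simp only [Function.comp_apply, swap_apply_left] at h1
    exact h.p1 a ha 0 hn (by rw [h1, h.p0 a ha (by omega)])
  | succ q ih =>
    intro a ha hn
    by_contra hne
    push Not at hne
    obtain ⟨r, r1, r2⟩ := ih _ (h.p2 a ha (q + 1) hn (hne _ le_rfl).1 (hne _ le_rfl).2) (by omega)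
    simp only [Function.comp_apply, swap_apply_left] at r2
    rw [swap_apply_of_ne_of_ne (by omega) (by omega)] at r2
    rcases r2 with r2 | r2
    · exact (hne r (by omega)).1 r2
    · exact (hne r (by omega)).2 r2

/-- content vectors -/
structure Cont (n : ℕ) (b : ℕ → ℤ) : Prop where
  c0 : b 0 = 0
  adj : ∀ q, q + 1 < n → ∃ r, r ≤ q ∧ (b (q + 1) = b r + 1 ∨ b (q + 1) = b r - 1)
  gap : ∀ d : ℤ, d = 1 ∨ d = -1 → ∀ p q, p < q → q < n → b q = b p →
    ∃ r, p < r ∧ r < q ∧ b r = b p + d

theorem OV.cont {n : ℕ} {S : Set (ℕ → ℂ)} (h : OV n S) (hn : 0 < n) (a : ℕ → ℂ) (ha : a ∈ S) :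
    ∃ b : ℕ → ℤ, Cont n b ∧ ∀ k < n, a k = b k := by
  have h1 : ∀ k, ∃ z : ℤ, k < n → a k = z := by
    intro k
    induction k using Nat.strong_induction_on with
    | _ k ih =>
    rcases k with _ | k
    · exact ⟨0, fun hk => by simpa using h.p0 a ha hk⟩
    by_cases hk : k + 1 < n
    · obtain ⟨r, r1, r2⟩ := h.adj k a ha hk
      obtain ⟨z, hz⟩ := ih r (by omega)
      rcases r2 with r2 | r2
      · exact ⟨z + 1, fun _ => by rw [r2, hz (by omega)]; simp⟩
      · exact ⟨z - 1, fun _ => by rw [r2, hz (by omega)]; simp⟩
    · exact ⟨0, fun h => absurd h hk⟩
  choose b hb using h1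
  refine ⟨b, ⟨?_, fun q hq => ?_, fun d hd p q hpq hq hE => ?_⟩, fun k hk => hb k hk⟩
  · have := h.p0 a ha hn
    rw [hb 0 hn] at this; exact_mod_cast this
  · obtain ⟨r, r1, r2⟩ := h.adj q a ha hq
    rw [hb _ hq, hb r (by omega)] at r2
    exact ⟨r, r1, by exact_mod_cast r2⟩
  · obtain ⟨g, rfl⟩ : ∃ g, q = p + g := ⟨q - p, by omega⟩
    obtain ⟨r, r1, r2, r3⟩ := h.gap d (by exact_mod_cast hd) g a ha p (by omega) hq
      (by rw [hb _ hq, hb p (by omega), hE])
    rw [hb r (by omega), hb p (by omega)] at r3
    exact ⟨r, r1, r2, by exact_mod_cast r3⟩

theorem Cont.neg {n : ℕ} {b : ℕ → ℤ} (h : Cont n b) : Cont n (fun k => -b k) := by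
  refine ⟨by simp [h.c0], fun q hq => ?_, fun d hd p q hpq hq hE => ?_⟩
  · obtain ⟨r, r1, r2⟩ := h.adj q hq
    exact ⟨r, r1, by omega⟩
  · obtain ⟨r, r1, r2, r3⟩ := h.gap (-d) (by omega) p q hpq hq (by simpa using hE)
    exact ⟨r, r1, r2, by omega⟩

theorem Cont.abs_le {n : ℕ} {b : ℕ → ℤ} (h : Cont n b) (k : ℕ) : k < n → -k ≤ b k ∧ b k ≤ k := by
  induction k using Nat.strong_induction_on with
  | _ k ih =>
  intro hk
  rcases k with _ | k
  · simp [h.c0]
  obtain ⟨r, r1, r2⟩ := h.adj k hk
  have := ih r (by omega) (by omega)
  omega

theorem Cont.first {n : ℕ} {b : ℕ → ℤ} (h : Cont n b) (q : ℕ) :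
    q < n → 0 < b q → ∃ r < q, b r = b q - 1 := by
  induction q using Nat.strong_induction_on with
  | _ q ih =>
  intro hq h0
  rcases q with _ | q
  · simp [h.c0] at h0
  obtain ⟨r, r1, r2 | r2⟩ := h.adj q hq
  · exact ⟨r, by omega, by omega⟩
  · obtain ⟨s, s1, s2⟩ := ih r (by omega) (by omega) (by omega)
    obtain ⟨t, t1, t2⟩ := ih s (by omega) (by omega) (by omega)
    exact ⟨t, by omega, by omega⟩

theorem card_le_of_between (n : ℕ) (T : Finset ℕ) (Q : ℕ → Prop) [DecidablePred Q]
    (hT : ∀ q ∈ T, q < n) (h1 : ∀ q ∈ T, ∃ r < q, Q r)
    (h2 : ∀ p ∈ T, ∀ q ∈ T, p < q → ∃ r, p < r ∧ r < q ∧ Q r) :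
    T.card ≤ ((range n).filter Q).card := by
  refine card_le_card_of_injOn (fun q => Nat.findGreatest Q q) (fun q hq => ?_) ?_
  · obtain ⟨r, r1, r2⟩ := h1 q hq
    have := Nat.findGreatest_le (P := Q) q
    have := hT q hq
    simp only [coe_filter, mem_range, Set.mem_ofPred_eq]
    exact ⟨by omega, Nat.findGreatest_spec r1.le r2⟩
  · have key : ∀ p ∈ T, ∀ q ∈ T, p < q → Nat.findGreatest Q p < Nat.findGreatest Q q := by
      intro p hp q hq hpq
      obtain ⟨r, r1, r2, r3⟩ := h2 p hp q hq hpq
      have := Nat.findGreatest_le (P := Q) p
      have := Nat.le_findGreatest r2.le r3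
      omega
    intro p hp q hq hE
    rcases lt_trichotomy p q with h | h | h
    · exact absurd hE (key p hp q hq h).ne
    · exact h
    · exact absurd hE (key q hq p hp h).ne'

/-- multiplicity of the value `j` -/
def mult (n : ℕ) (b : ℕ → ℤ) (j : ℕ) : ℕ := ((range n).filter fun k => b k = j).card

theorem Cont.mult_le {n : ℕ} {b : ℕ → ℤ} (h : Cont n b) (j : ℕ) :
    mult n b (j + 1) ≤ mult n b j ∧ mult n b j ≤ mult n b (j + 1) + 1 := by
  constructor
  · refine card_le_of_between n _ _ (by simp +contextual) (fun q hq => ?_) fun p hp q hq hpq => ?_
    · simp only [mem_filter, mem_range] at hq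
      obtain ⟨r, r1, r2⟩ := h.first q hq.1 (by omega)
      exact ⟨r, r1, by omega⟩
    · simp only [mem_filter, mem_range] at hp hq
      obtain ⟨r, r1, r2, r3⟩ := h.gap (-1) (by simp) p q hpq hq.1 (by omega)
      exact ⟨r, r1, r2, by omega⟩
  · unfold mult
    set T := (range n).filter fun k => b k = j with hT
    rcases T.eq_empty_or_nonempty with h0 | h0
    · simp [h0]
    have hm := T.min'_mem h0
    rw [← card_erase_add_one hm, add_le_add_iff_right]
    have key : ∀ p ∈ T, ∀ q ∈ T, p < q → ∃ r, p < r ∧ r < q ∧ b r = ((j + 1 : ℕ) : ℤ) := by
      intro p hp q hq hpq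
      simp only [hT, mem_filter, mem_range] at hp hq
      obtain ⟨r, r1, r2, r3⟩ := h.gap 1 (by simp) p q hpq hq.1 (by omega)
      exact ⟨r, r1, r2, by omega⟩
    refine card_le_of_between n _ _ (by simp +contextual [hT]) (fun q hq => ?_)
      fun p hp q hq hpq => key p (mem_of_mem_erase hp) q (mem_of_mem_erase hq) hpq
    obtain ⟨r, -, r2, r3⟩ := key _ hm q (mem_of_mem_erase hq)
      (lt_of_le_of_ne (T.min'_le q (mem_of_mem_erase hq)) (ne_of_mem_erase hq).symm)
    exact ⟨r, r2, r3⟩

theorem Cont.mult_top {n : ℕ} {b : ℕ → ℤ} (h : Cont n b) : mult n b n = 0 := by
  simp only [mult, card_eq_zero, filter_eq_empty_iff, mem_range]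
  intro k hk
  have := h.abs_le k hk
  omega

theorem Cont.sum_eq {n : ℕ} {b : ℕ → ℤ} (h : Cont n b) (F : ℤ → ℤ) :
    ∑ k ∈ range n, F (b k) = mult n b 0 * F 0 + ∑ j ∈ range n, mult n b (j + 1) * F (j + 1) +
      ∑ j ∈ range n, mult n (fun k => -b k) (j + 1) * F (-(j + 1)) := by
  have h1 : ∀ (b : ℕ → ℤ) (j : ℕ) (z : ℤ),
      (mult n b j : ℤ) * z = ∑ k ∈ range n, if b k = j then z else 0 := by
    intro b j z
    rw [← sum_filter, sum_const, mult, nsmul_eq_mul]
  simp only [h1]
  rw [sum_comm, sum_comm (s := range n) (t := range n)
    (f := fun j k => if -b k = ((j + 1 : ℕ) : ℤ) then F (-(j + 1)) else 0), ← sum_add_distrib,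
    ← sum_add_distrib]
  refine sum_congr rfl fun k hk => ?_
  have hb := h.abs_le k (mem_range.mp hk)
  have hk := mem_range.mp hk
  rcases lt_trichotomy (b k) 0 with h0 | h0 | h0
  · rw [if_neg (by omega), sum_eq_zero fun j _ => if_neg (by omega),
      sum_eq_single (-b k - 1).toNat (fun j _ hj => if_neg (by omega))
        (fun hj => absurd (mem_range.mpr (by omega)) hj), if_pos (by omega)]
    simp only [zero_add]; congr 1; omega
  · rw [if_pos (by omega), sum_eq_zero fun j _ => if_neg (by omega),
      sum_eq_zero fun j _ => if_neg (by omega), h0]; simp
  · rw [if_neg (by omega), sum_eq_zero (s := range n)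
      (f := fun j => if -b k = ((j + 1 : ℕ) : ℤ) then F (-(j + 1)) else 0)
      fun j _ => if_neg (by omega),
      sum_eq_single (b k - 1).toNat (fun j _ hj => if_neg (by omega))
        (fun hj => absurd (mem_range.mpr (by omega)) hj), if_pos (by omega)]
    simp only [zero_add, add_zero]; congr 1; omega

/-- search over one side of the diagonal -/
noncomputable def go (n B : ℕ) (K : ℕ → ℕ → ℕ → Bool) (f : ℕ) : ℕ → ℕ → ℕ → ℕ → ℕ → Bool :=
  Nat.rec (fun _ _ _ _ _ => false) (fun _ ih c h s t p =>
    Bool.rec (Bool.rec (Nat.rec (K s t p) (fun h' _ =>
      Bool.rec false (ih (Nat.succ c) h' (Nat.add s h') (Nat.add t (Nat.mul h' c))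
          (Nat.add p (Nat.mul h' (Nat.mul c c))))
        (ih (Nat.succ c) h (Nat.add s h) (Nat.add t (Nat.mul h c))
          (Nat.add p (Nat.mul h (Nat.mul c c))))) h)
      true (Nat.blt B p)) true (Nat.blt n s)) f

theorem go_zero (n B K f c s t p) (hs : s ≤ n) (hp : p ≤ B) :
    go n B K (f + 1) c 0 s t p = K s t p := by
  have h1 : Nat.blt n s = false := by
    rw [← Bool.not_eq_true, Nat.blt_eq]; omega
  have h2 : Nat.blt B p = false := by
    rw [← Bool.not_eq_true, Nat.blt_eq]; omega
  simp only [go, h1, h2]
  rfl

theorem go_succ (n B K f c h s t p) (hs : s ≤ n) (hp : p ≤ B)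
    (H : go n B K (f + 1) c (h + 1) s t p = true) :
    go n B K f (c + 1) (h + 1) (s + (h + 1)) (t + (h + 1) * c) (p + (h + 1) * (c * c)) = true ∧
    go n B K f (c + 1) h (s + h) (t + h * c) (p + h * (c * c)) = true := by
  have h1 : Nat.blt n s = false := by
    rw [← Bool.not_eq_true, Nat.blt_eq]; omega
  have h2 : Nat.blt B p = false := by
    rw [← Bool.not_eq_true, Nat.blt_eq]; omega
  have e : go n B K (f + 1) c (h + 1) s t p =
      Bool.rec false (go n B K f (c + 1) h (s + h) (t + h * c) (p + h * (c * c)))
        (go n B K f (c + 1) (h + 1) (s + (h + 1)) (t + (h + 1) * c) (p + (h + 1) * (c * c))) := by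
    simp only [go, h1, h2]
    rfl
  rw [e] at H
  revert H
  cases go n B K f (c + 1) (h + 1) (s + (h + 1)) (t + (h + 1) * c) (p + (h + 1) * (c * c)) <;> simp

theorem go_sound (n B : ℕ) (K : ℕ → ℕ → ℕ → Bool) (r : ℕ → ℕ)
    (hr : ∀ j, r (j + 1) ≤ r j ∧ r j ≤ r (j + 1) + 1) (M : ℕ) (hM : r M = 0) (s t p : ℕ)
    (hs : s + ∑ j ∈ range M, r (j + 1) ≤ n)
    (hp : p + ∑ j ∈ range M, r (j + 1) * ((j + 1) * (j + 1)) ≤ B) (f : ℕ) : ∀ c ≤ M,
    go n B K f (c + 1) (r c) (s + ∑ j ∈ range c, r (j + 1))
      (t + ∑ j ∈ range c, r (j + 1) * (j + 1))
      (p + ∑ j ∈ range c, r (j + 1) * ((j + 1) * (j + 1))) = true →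
    K (s + ∑ j ∈ range M, r (j + 1)) (t + ∑ j ∈ range M, r (j + 1) * (j + 1))
      (p + ∑ j ∈ range M, r (j + 1) * ((j + 1) * (j + 1))) = true := by
  induction f with
  | zero => intro c _ h; simp [go] at h
  | succ f ih =>
    intro c hc h
    have hle : ∑ j ∈ range c, r (j + 1) ≤ ∑ j ∈ range M, r (j + 1) :=
      sum_le_sum_of_subset (range_subset_range.mpr hc)
    have hle' : ∑ j ∈ range c, r (j + 1) * ((j + 1) * (j + 1)) ≤
        ∑ j ∈ range M, r (j + 1) * ((j + 1) * (j + 1)) :=
      sum_le_sum_of_subset (range_subset_range.mpr hc)
    rcases hrc : r c with _ | h'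
    · rw [hrc, go_zero _ _ _ _ _ _ _ _ (by omega) (by omega)] at h
      have hz : ∀ j, c ≤ j → r j = 0 := fun j hj => by
        induction j, hj using Nat.le_induction with
        | base => exact hrc
        | succ j _ ih => have := (hr j).1; omega
      have e : ∀ F : ℕ → ℕ, ∑ j ∈ range c, r (j + 1) * F j = ∑ j ∈ range M, r (j + 1) * F j :=
        fun F => sum_subset (range_subset_range.mpr hc) fun j _ hj => by
          rw [hz (j + 1) (by simp at hj; omega), zero_mul]
      have e1 := e fun _ => 1
      simp only [mul_one] at e1
      rw [← e1, ← e, ← e]; exact h
    · rw [hrc] at h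
      have h := go_succ _ _ _ _ _ _ _ _ _ (by omega) (by omega) h
      have hcM : c ≠ M := by rintro rfl; omega
      apply ih (c + 1) (by omega)
      simp only [sum_range_succ, ← add_assoc]
      have := hr c
      rcases (by omega : r (c + 1) = h' + 1 ∨ r (c + 1) = h') with e | e
      · rw [e]; exact h.1
      · rw [e]; exact h.2

/-- exhaustive search over all partitions of `n` -/
noncomputable def search (n B : ℕ) (Q : ℕ → ℕ → ℕ → Bool) : Bool :=
  (List.range (n + 1)).all fun d => go n B (fun s t p => go n B
    (fun s' t' p' => s' != n || Q t t' p') (n + 2) 1 d s 0 p) (n + 2) 1 d d 0 0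

theorem Cont.search_sound {n : ℕ} {b : ℕ → ℤ} (h : Cont n b) (B : ℕ) (Q : ℕ → ℕ → ℕ → Bool)
    (hB : ∑ k ∈ range n, b k ^ 2 ≤ B)
    (hQ : search n B Q = true) : ∃ t t' p : ℕ, Q t t' p = true ∧
      ∑ k ∈ range n, b k = t - t' ∧ ∑ k ∈ range n, b k ^ 2 = p := by
  have e0 := h.sum_eq fun _ => 1
  have e1 := h.sum_eq fun z => z
  have e2 := h.sum_eq fun z => z ^ 2
  simp only [sum_const, card_range, mul_one, nsmul_eq_mul] at e0
  have e0' : n = mult n b 0 + ∑ j ∈ range n, mult n b (j + 1) +
      ∑ j ∈ range n, mult n (fun k => -b k) (j + 1) := by exact_mod_cast e0
  have e2' : ∑ k ∈ range n, b k ^ 2 =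
      ((0 + ∑ j ∈ range n, mult n b (j + 1) * ((j + 1) * (j + 1)) +
        ∑ j ∈ range n, mult n (fun k => -b k) (j + 1) * ((j + 1) * (j + 1)) : ℕ) : ℤ) := by
    rw [e2]; simp [sq]
    refine sum_congr rfl fun j _ => by ring
  rw [e2'] at hB
  have hB' := Int.ofNat_le.mp hB
  have hm : mult n (fun k => -b k) 0 = mult n b 0 := by simp [mult]
  simp only [search, List.all_eq_true, List.mem_range] at hQ
  have h1 := go_sound n B _ (mult n b) h.mult_le n h.mult_top (mult n b 0) 0 0 (by omega)
    (by omega) (n + 2) 0 (by omega) (by simpa using hQ (mult n b 0) (by omega))
  have h2 := go_sound n B _ (mult n fun k => -b k) h.neg.mult_le n h.neg.mult_top _ 0 _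
    (le_of_eq e0'.symm) hB' (n + 2) 0 (by omega) (by rw [hm]; simpa using h1)
  rw [← e0'] at h2
  simp only [bne_self_eq_false, Bool.false_or] at h2
  refine ⟨_, _, _, h2, ?_, e2'⟩
  rw [e1]; simp [sub_eq_add_neg, ← sum_neg_distrib]
  refine sum_congr rfl fun j _ => by ring

end Pool.Agent.P.MP_eccc2e_al
end

-- part Pool.Agent.P.MP_eccc2e_al.Specht
section

/-! A joint eigenvector of the Jucys-Murphy elements for every Young diagram. -/

namespace Pool.Agent.P.MP_eccc2e_al

open Equiv Finset

/-- permutation representation on functions of words -/
noncomputable def wordRep (n : ℕ) : Representation ℂ (Perm (Fin n)) ((Fin n → ℕ) → ℂ) where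
  toFun g := LinearMap.funLeft ℂ ℂ (fun r : Fin n → ℕ => r ∘ g)
  map_one' := by ext; simp
  map_mul' g h := by ext; rfl

theorem wordRep_apply {n : ℕ} (g : Perm (Fin n)) (f : (Fin n → ℕ) → ℂ) (r : Fin n → ℕ) :
    wordRep n g f r = f (r ∘ g) := rfl

/-- column reading tableau -/
structure Tab {n : ℕ} (col row : Fin n → ℕ) : Prop where
  lt : ∀ j k, j < k ↔ col j < col k ∨ (col j = col k ∧ row j < row k)
  down : ∀ k c r, c ≤ col k → r ≤ row k → ∃ j, col j = c ∧ row j = r

section
variable {n : ℕ} {col row : Fin n → ℕ}

theorem Tab.inj (h : Tab col row) {j k : Fin n} (h1 : col j = col k) (h2 : row j = row k) :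
    j = k := by
  have := h.lt j k
  have := h.lt k j
  omega

/-- the polytabloid -/
noncomputable def pt (col row : Fin n → ℕ) (r : Fin n → ℕ) : ℂ :=
  ∑ σ : Perm (Fin n), if col ∘ σ = col ∧ r ∘ σ = row then ((Perm.sign σ : ℤ) : ℂ) else 0

theorem pt_col (τ : Perm (Fin n)) (hτ : col ∘ τ = col) (r : Fin n → ℕ) :
    pt col row (r ∘ τ) = ((Perm.sign τ : ℤ) : ℂ) * pt col row r := by
  unfold pt
  rw [← Equiv.sum_comp (Equiv.mulLeft τ) (fun σ : Perm (Fin n) =>
    if col ∘ σ = col ∧ r ∘ σ = row then ((Perm.sign σ : ℤ) : ℂ) else 0), mul_sum]
  refine sum_congr rfl fun σ _ => ?_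
  simp only [coe_mulLeft, Perm.coe_mul, ← Function.comp_assoc, hτ]
  split_ifs
  · rcases Int.units_eq_one_or (Perm.sign τ) with h | h <;> simp [h]
  · simp

theorem pt_row (h : Tab col row) : pt col row row = 1 := by
  unfold pt
  rw [sum_eq_single 1]
  · simp
  · intro σ _ hσ
    rw [if_neg]
    rintro ⟨h1, h2⟩
    exact hσ (Equiv.ext fun j => h.inj (congrFun h1 j) (congrFun h2 j))
  · simp

theorem pt_supp (r : Fin n → ℕ) (hr : pt col row r ≠ 0) (j : Fin n) :
    ∃ j', col j' = col j ∧ row j' = r j := by
  obtain ⟨σ, -, hσ⟩ := exists_ne_zero_of_sum_ne_zero hr
  have : col ∘ σ = col ∧ r ∘ σ = row := by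
    by_contra h; exact hσ (if_neg h)
  exact ⟨σ.symm j, by simpa using (congrFun this.1 (σ.symm j)).symm,
    by simpa using (congrFun this.2 (σ.symm j)).symm⟩

theorem swap_mem {A : Finset (Fin n)} {a b : Fin n} (ha : a ∈ A) (hb : b ∈ A) (x : Fin n) :
    (x ∈ A → swap a b x ∈ A) ∧ (x ∉ A → swap a b x = x) := by
  rw [swap_apply_def]
  constructor
  · intro hx; split_ifs <;> assumption
  · intro hx
    rw [if_neg (by rintro rfl; exact hx ha), if_neg (by rintro rfl; exact hx hb)]

theorem garnir (h : Tab col row) (k : Fin n) (c : ℕ) (hc : c < col k) (r : Fin n → ℕ) :
    ∑ j ∈ univ.filter (fun j => col j = c), pt col row (r ∘ swap j k) = pt col row r := by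
  set C := univ.filter (fun j => col j = c) with hC
  have hkC : k ∉ C := by simp [hC]; omega
  set A := insert k C with hA
  have hkA : k ∈ A := mem_insert_self _ _
  let w : (Fin n → ℕ) → ℂ := fun r =>
    ∑ j ∈ A, ((Perm.sign (swap j k) : ℤ) : ℂ) * pt col row (r ∘ swap j k)
  have anti : ∀ r, ∀ i ∈ A, ∀ i' ∈ A, i ≠ i' → w (r ∘ swap i i') = -w r := by
    intro r i hi i' hi' hne
    simp only [w]
    rw [← sum_neg_distrib]
    refine sum_equiv (swap i i') (fun j => ⟨(swap_mem hi hi' j).1, fun hj => ?_⟩) fun j hj => ?_
    · simpa using (swap_mem hi hi' _).1 hj
    have hsj := (swap_mem hi hi' j).1 hj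
    have hu : col ∘ (swap (swap i i' j) k * swap i i' * swap j k : Perm (Fin n)) = col := by
      funext x
      simp only [Function.comp_apply, Perm.coe_mul]
      by_cases hx : x ∈ A
      · by_cases hxk : x = k
        · subst hxk; simp
        have h1 := (swap_mem hsj hkA _).1 ((swap_mem hi hi' _).1 ((swap_mem hj hkA x).1 hx))
        have h2 : swap (swap i i' j) k (swap i i' (swap j k x)) ≠ k := by
          intro h2
          apply hxk
          have h3 : swap (swap i i' j) k (swap i i' (swap j k k)) = k := by simp
          exact (swap j k).injective ((swap i i').injective ((swap _ k).injective (h2.trans h3.symm)))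
        have h4 := (mem_insert.mp h1).resolve_left h2
        have h5 := (mem_insert.mp hx).resolve_left hxk
        simp only [hC, mem_filter, mem_univ, true_and] at h4 h5
        rw [h4, h5]
      · rw [(swap_mem hj hkA x).2 hx, (swap_mem hi hi' x).2 hx, (swap_mem hsj hkA x).2 hx]
    have he : (r ∘ swap i i') ∘ swap j k = (r ∘ swap (swap i i' j) k) ∘
        (swap (swap i i' j) k * swap i i' * swap j k : Perm (Fin n)) := by
      funext x; simp
    rw [he, pt_col _ hu, map_mul, map_mul, Perm.sign_swap hne]
    rcases Int.units_eq_one_or (Perm.sign (swap j k)) with h | h <;> simp [h]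
  have hw : w r = 0 := by
    by_contra hw
    obtain ⟨j, hj, hj0⟩ := exists_ne_zero_of_sum_ne_zero hw
    have hs := pt_supp _ (right_ne_zero_of_mul hj0)
    have h1 : ∀ y, ∃ z, y ∈ A → z ∈ C ∧ row z = r (swap j k y) := by
      intro y
      obtain ⟨y', e1, e2⟩ := hs y
      by_cases hy : y ∈ A
      · have : c ≤ col y := by
          rcases mem_insert.mp hy with rfl | hy
          · omega
          · simp only [hC, mem_filter, mem_univ, true_and] at hy; omega
        obtain ⟨z, z1, z2⟩ := h.down y' c (row y') (by omega) le_rfl
        exact ⟨z, fun _ => ⟨by simp [hC, z1], by rw [z2, e2]; rfl⟩⟩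
      · exact ⟨y, fun h => absurd h hy⟩
    choose φ hφ using h1
    obtain ⟨y, hy, y', hy', hne, hE⟩ := exists_ne_map_eq_of_card_lt_of_maps_to (s := A) (t := C)
      (by rw [hA, card_insert_of_notMem hkC]; omega) (f := φ) fun y hy => (hφ y hy).1
    have hr : r (swap j k y) = r (swap j k y') := by rw [← (hφ y hy).2, ← (hφ y' hy').2, hE]
    have h2 := anti r _ ((swap_mem hj hkA y).1 hy) _ ((swap_mem hj hkA y').1 hy')
      ((swap j k).injective.ne hne)
    have h3 : r ∘ swap (swap j k y) (swap j k y') = r := by
      funext x
      simp only [Function.comp_apply]
      rw [swap_apply_def (swap j k y)]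
      split_ifs with e1 e2
      · rw [e1, hr]
      · rw [e2, hr]
      · rfl
    rw [h3] at h2
    exact hw (by linear_combination h2 / 2)
  simp only [w, hA] at hw
  rw [sum_insert hkC] at hw
  have h4 : ∑ j ∈ C, ((Perm.sign (swap j k) : ℤ) : ℂ) * pt col row (r ∘ swap j k) =
      -∑ j ∈ C, pt col row (r ∘ swap j k) := by
    rw [← sum_neg_distrib]
    refine sum_congr rfl fun j hj => ?_
    rw [Perm.sign_swap (by rintro rfl; exact hkC hj)]; simp
  rw [h4] at hw
  simp only [swap_self, Perm.sign_refl, Units.val_one, Int.cast_one, one_mul, coe_refl,
    Function.comp_id] at hw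
  linear_combination -hw

theorem X_pt (h : Tab col row) (k : Fin n) :
    X (wordRep n) k (pt col row) = ((col k : ℂ) - row k) • pt col row := by
  funext r
  simp only [X, LinearMap.sum_apply, Finset.sum_apply, wordRep_apply, Pi.smul_apply, smul_eq_mul]
  rw [← sum_filter_add_sum_filter_not _ (fun j => col j < col k)]
  have e1 : ∑ j ∈ (Iio k).filter (fun j => col j < col k), pt col row (r ∘ swap j k) =
      col k * pt col row r := by
    rw [← sum_fiberwise_of_maps_to (t := range (col k)) (g := col) (by simp)]
    rw [sum_congr rfl (g := fun _ => pt col row r)]
    · simp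
    intro c hc
    rw [← garnir h k c (mem_range.mp hc) r]
    refine sum_congr ?_ fun _ _ => rfl
    ext j
    have := h.lt j k
    have := mem_range.mp hc
    simp only [mem_filter, mem_Iio, mem_univ, true_and]
    omega
  have e2 : ∑ j ∈ (Iio k).filter (fun j => ¬col j < col k), pt col row (r ∘ swap j k) =
      -(row k * pt col row r) := by
    rw [sum_congr rfl (g := fun _ => -pt col row r)]
    · have : ((Iio k).filter (fun j => ¬col j < col k)).card = row k := by
        rw [← card_range (row k)]
        refine card_bij (fun j _ => row j) (fun j hj => ?_) (fun j hj j' hj' hE => ?_)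
          fun b hb => ?_
        · have := h.lt j k
          simp only [mem_filter, mem_Iio, mem_range] at hj ⊢; omega
        · have := h.lt j k
          have := h.lt j' k
          simp only [mem_filter, mem_Iio] at hj hj'
          exact h.inj (by omega) hE
        · obtain ⟨j, j1, j2⟩ := h.down k (col k) b le_rfl (mem_range.mp hb).le
          have := h.lt j k
          have := mem_range.mp hb
          exact ⟨j, by simp only [mem_filter, mem_Iio]; omega, j2⟩
      rw [sum_const, this]; simp
    intro j hj
    have := h.lt j k
    simp only [mem_filter, mem_Iio] at hj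
    have hc : col j = col k := by omega
    rw [pt_col _ (by
      funext x
      simp only [Function.comp_apply, swap_apply_def]
      split_ifs with a1 a2
      · rw [a1, hc]
      · rw [a2, hc]
      · rfl), Perm.sign_swap hj.1.ne]
    simp
  rw [e1, e2]; ring

end

theorem exists_tab (D : Finset (ℕ × ℕ)) (hD : IsLowerSet (D : Set (ℕ × ℕ))) (n : ℕ)
    (hn : D.card = n) : ∃ col row : Fin n → ℕ, Tab col row ∧
      ∀ G : ℕ × ℕ → ℤ, ∑ k, G (col k, row k) = ∑ p ∈ D, G p := by
  let D' : Finset (ℕ ×ₗ ℕ) := D.map toLex.toEmbedding
  have hc : D'.card = n := by simp [D', hn]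
  let f := D'.orderEmbOfFin hc
  have hf : ∀ k, ofLex (f k) ∈ D := fun k => by
    have := D'.orderEmbOfFin_mem hc k
    simpa [D'] using this
  have hs : ∀ p ∈ D, ∃ k, ofLex (f k) = p := fun p hp => by
    have : toLex p ∈ Set.range f := by
      rw [D'.range_orderEmbOfFin hc]; simpa [D'] using hp
    obtain ⟨k, hk⟩ := this
    exact ⟨k, by rw [hk]; rfl⟩
  refine ⟨fun k => (ofLex (f k)).1, fun k => (ofLex (f k)).2, ⟨fun j k => ?_, fun k c r hc hr => ?_⟩,
    fun G => ?_⟩
  · rw [← f.lt_iff_lt, Prod.Lex.lt_iff]
  · obtain ⟨j, hj⟩ := hs (c, r) (hD (a := ofLex (f k)) ⟨hc, hr⟩ (hf k))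
    exact ⟨j, by rw [hj], by rw [hj]⟩
  · refine sum_bij (fun k _ => ofLex (f k)) (fun k _ => hf k) (fun j _ k _ hE => ?_)
      (fun p hp => ?_) fun _ _ => rfl
    · exact f.injective (ofLex.injective hE)
    · obtain ⟨k, hk⟩ := hs p hp
      exact ⟨k, mem_univ _, hk⟩

end Pool.Agent.P.MP_eccc2e_al
end

-- part Pool.Agent.P.MP_eccc2e_al.ClassSum
section

/-! Class sums of 3-cycles and of double transpositions in terms of Jucys-Murphy elements. -/

namespace Pool.Agent.P.MP_eccc2e_al

open Equiv Finset Module

/-- ordered triples of distinct points -/
abbrev I3 (n : ℕ) := {t : Fin n × Fin n × Fin n // t.1 ≠ t.2.1 ∧ t.1 ≠ t.2.2 ∧ t.2.1 ≠ t.2.2}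

/-- ordered quadruples of distinct points -/
abbrev I4 (n : ℕ) := {t : (Fin n × Fin n) × Fin n × Fin n // t.1.1 ≠ t.1.2 ∧ t.2.1 ≠ t.2.2 ∧
  t.2.1 ≠ t.1.1 ∧ t.2.1 ≠ t.1.2 ∧ t.2.2 ≠ t.1.1 ∧ t.2.2 ≠ t.1.2}

/-- a 3-cycle -/
def y3 {n : ℕ} (t : I3 n) : Perm (Fin n) := swap t.1.1 t.1.2.2 * swap t.1.2.1 t.1.2.2

/-- a double transposition -/
def y4 {n : ℕ} (t : I4 n) : Perm (Fin n) := swap t.1.1.1 t.1.1.2 * swap t.1.2.1 t.1.2.2

section
variable {n : ℕ} {V : Type} [AddCommGroup V] [Module ℂ V]
  (ρ : Representation ℂ (Perm (Fin n)) V)

theorem sum3 : ∑ t : I3 n, ρ (y3 t) = ∑ a, ∑ b, ∑ c,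
    if a ≠ b ∧ a ≠ c ∧ b ≠ c then ρ (swap a c) * ρ (swap b c) else 0 := by
  unfold y3
  rw [← sum_subtype (univ.filter fun t : Fin n × Fin n × Fin n =>
    t.1 ≠ t.2.1 ∧ t.1 ≠ t.2.2 ∧ t.2.1 ≠ t.2.2) (by simp)
    (fun t => ρ (swap t.1 t.2.2 * swap t.2.1 t.2.2)), sum_filter]
  simp only [Fintype.sum_prod_type, map_mul]

theorem sum4 : ∑ t : I4 n, ρ (y4 t) = ∑ a, ∑ b, ∑ c, ∑ d,
    if a ≠ b ∧ c ≠ d ∧ c ≠ a ∧ c ≠ b ∧ d ≠ a ∧ d ≠ b then ρ (swap a b) * ρ (swap c d) else 0 := by
  unfold y4
  rw [← sum_subtype (univ.filter fun t : (Fin n × Fin n) × Fin n × Fin n =>
    t.1.1 ≠ t.1.2 ∧ t.2.1 ≠ t.2.2 ∧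
      t.2.1 ≠ t.1.1 ∧ t.2.1 ≠ t.1.2 ∧ t.2.2 ≠ t.1.1 ∧ t.2.2 ≠ t.1.2) (by simp)
    (fun t => ρ (swap t.1.1 t.1.2 * swap t.2.1 t.2.2)), sum_filter]
  simp only [Fintype.sum_prod_type, map_mul]

theorem X_eq (k : Fin n) : X ρ k = ∑ j, if j < k then ρ (swap j k) else 0 := by
  rw [X, ← sum_filter]; congr 1; ext; simp

theorem cyc_rot (a b c : Fin n) (h1 : a ≠ b) (_h2 : a ≠ c) (h3 : b ≠ c) :
    ρ (swap a c) * ρ (swap b c) = ρ (swap b a) * ρ (swap c a) := by
  rw [conj_swap, swap_apply_right, swap_apply_of_ne_of_ne h1.symm h3, swap_comm c a]

theorem sum_lt_one : ∑ k : Fin n, ∑ a : Fin n, (if a < k then (1 : End ℂ V) else 0) =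
    ((n : ℂ) * (n - 1) / 2) • (1 : End ℂ V) := by
  have h1 : ∀ k : Fin n, ∑ a : Fin n, (if a < k then (1 : End ℂ V) else 0) =
      ((k : ℕ) : ℂ) • (1 : End ℂ V) := by
    intro k
    rw [← sum_filter, sum_const, show univ.filter (fun a => a < k) = Iio k by ext; simp,
      Fin.card_Iio, Nat.cast_smul_eq_nsmul]
  simp only [h1]
  rw [← sum_smul, Fin.sum_univ_eq_sum_range (fun k => (k : ℂ)) n]
  congr 1
  induction n with
  | zero => simp
  | succ m ih =>
    have : ∀ m : ℕ, ∑ k ∈ range m, (k : ℂ) = (m : ℂ) * (m - 1) / 2 := by
      intro m
      induction m with
      | zero => simp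
      | succ m ih => rw [sum_range_succ, ih]; push_cast; ring
    exact this _

theorem K3_eq : ∑ t : I3 n, ρ (y3 t) =
    (3 : ℂ) • (∑ k, X ρ k * X ρ k - ((n : ℂ) * (n - 1) / 2) • (1 : End ℂ V)) := by
  let g : Fin n → Fin n → Fin n → End ℂ V := fun a b c =>
    if a < c ∧ b < c ∧ a ≠ b then ρ (swap a c) * ρ (swap b c) else 0
  have h1 : ∀ a b c, (if a ≠ b ∧ a ≠ c ∧ b ≠ c then ρ (swap a c) * ρ (swap b c) else 0) =
      g a b c + g b c a + g c a b := by
    intro a b c
    simp only [g]
    by_cases h : a ≠ b ∧ a ≠ c ∧ b ≠ c
    · rw [if_pos h, ← cyc_rot ρ a b c h.1 h.2.1 h.2.2,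
        cyc_rot ρ c a b h.2.1.symm h.2.2.symm h.1, swap_comm b c]
      split_ifs <;> first | omega | simp
    · rw [if_neg h, if_neg (by omega), if_neg (by omega), if_neg (by omega)]; simp
  have h2 : ∑ k, X ρ k * X ρ k = ∑ a, ∑ b, ∑ c, g a b c +
      ((n : ℂ) * (n - 1) / 2) • (1 : End ℂ V) := by
    rw [← sum_lt_one]
    have : ∑ a, ∑ b, ∑ c, g a b c = ∑ c, ∑ a, ∑ b, g a b c := by
      rw [sum_congr rfl fun a _ => sum_comm, sum_comm]
    rw [this, ← sum_add_distrib]
    refine sum_congr rfl fun k _ => ?_
    rw [X_eq, sum_mul_sum, ← sum_add_distrib]
    refine sum_congr rfl fun a _ => ?_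
    rw [← sum_erase_add _ _ (mem_univ a), ← sum_erase_add _ _ (mem_univ a)]
    congr 1
    · rw [show g a a k = 0 by simp [g], add_zero]
      refine sum_congr rfl fun b hb => ?_
      have := ne_of_mem_erase hb
      simp only [g]
      split_ifs <;> first | omega | simp
    · split_ifs
      · exact swap_sq ρ _ _
      · simp
  have h3 : ∑ a, ∑ b, ∑ c, g b c a = ∑ a, ∑ b, ∑ c, g a b c := by
    rw [sum_comm, sum_congr rfl fun a _ => sum_comm]
  have h4 : ∑ a, ∑ b, ∑ c, g c a b = ∑ a, ∑ b, ∑ c, g a b c := by
    rw [sum_congr rfl fun a _ => sum_comm, sum_comm]
  rw [sum3, h2]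
  simp only [h1, sum_add_distrib]
  rw [h3, h4]
  module

theorem K4_eq : ∑ t : I4 n, ρ (y4 t) = (4 : ℂ) • ((∑ k, X ρ k) * (∑ k, X ρ k) -
    (3 : ℂ) • ∑ k, X ρ k * X ρ k + ((n : ℂ) * (n - 1)) • (1 : End ℂ V)) := by
  let σ : Fin n → Fin n → End ℂ V := fun a b => if a = b then 0 else ρ (swap a b)
  have hσ : ∀ a b, σ a b = σ b a := fun a b => by simp only [σ, swap_comm a b, eq_comm]
  let Y : Fin n → End ℂ V := fun c => ∑ a, σ a c
  have hN : ∑ a, ∑ b, σ a b * σ a b = ((n : ℂ) * (n - 1)) • (1 : End ℂ V) := by
    have : ∀ a b, σ a b * σ a b = (if a < b then (1 : End ℂ V) else 0) +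
        if b < a then (1 : End ℂ V) else 0 := by
      intro a b
      simp only [σ]
      split_ifs <;> first | omega | simp [swap_sq]
    simp only [this, sum_add_distrib]
    rw [sum_comm, sum_lt_one]; module
  have hP : ∑ c, Y c = (2 : ℂ) • ∑ k, X ρ k := by
    have : ∀ a b, σ a b = (if a < b then ρ (swap a b) else 0) +
        if b < a then ρ (swap b a) else 0 := by
      intro a b
      simp only [σ]
      split_ifs <;> first | omega | simp [swap_comm]
    simp only [Y, this, sum_add_distrib, X_eq]
    rw [sum_comm (f := fun c a => if c < a then ρ (swap c a) else 0)]; module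
  have hY : ∑ c, Y c * Y c = ∑ t : I3 n, ρ (y3 t) + ((n : ℂ) * (n - 1)) • (1 : End ℂ V) := by
    rw [sum3, ← hN, ← sum_add_distrib]
    simp only [Y, sum_mul_sum]
    rw [sum_comm]
    refine sum_congr rfl fun a _ => ?_
    rw [sum_comm, ← sum_erase_add _ _ (mem_univ a)]
    congr 1
    rw [← sum_erase_add _ _ (mem_univ a)]
    rw [show (∑ c, if a ≠ a ∧ a ≠ c ∧ a ≠ c then ρ (swap a c) * ρ (swap a c) else 0) = 0 by simp,
      add_zero]
    refine sum_congr rfl fun b hb => sum_congr rfl fun c _ => ?_
    have := ne_of_mem_erase hb
    simp only [σ]
    split_ifs <;> first | omega | simp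
  have h1 : ∀ a b, (∑ c, ∑ d, if a ≠ b ∧ c ≠ d ∧ c ≠ a ∧ c ≠ b ∧ d ≠ a ∧ d ≠ b then
      ρ (swap a b) * ρ (swap c d) else 0) = σ a b * ∑ c, Y c - (2 : ℂ) • (σ a b * Y a) -
        (2 : ℂ) • (σ a b * Y b) + (2 : ℂ) • (σ a b * σ a b) := by
    intro a b
    by_cases hab : a = b
    · simp [σ, hab]
    have e : ∀ c d, (if a ≠ b ∧ c ≠ d ∧ c ≠ a ∧ c ≠ b ∧ d ≠ a ∧ d ≠ b then
        ρ (swap a b) * ρ (swap c d) else 0) = σ a b * (σ d c - (if c = a then σ d c else 0) -
          (if c = b then σ d c else 0) - (if d = a then σ c d else 0) -
          (if d = b then σ c d else 0) + (if d = b then if c = a then σ c d else 0 else 0) +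
          (if d = a then if c = b then σ d c else 0 else 0)) := by
      intro c d
      rw [hσ d c]
      simp only [σ]
      split_ifs <;> first | omega | simp
    simp only [e, ← mul_sum, sum_add_distrib, sum_sub_distrib, sum_ite_eq', mem_univ, if_true,
      sum_ite_irrel, sum_const_zero]
    simp only [mul_add, mul_sub, Y]; module
  have h2 : ∑ a, ∑ b, σ a b * Y a = ∑ c, Y c * Y c := by
    refine sum_congr rfl fun a _ => ?_
    rw [← sum_mul]; simp only [Y, hσ a]
  have h3 : ∑ a, ∑ b, σ a b * Y b = ∑ c, Y c * Y c := by
    rw [sum_comm]
    refine sum_congr rfl fun a _ => ?_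
    rw [← sum_mul]
  have h4 : ∑ a, ∑ b, σ a b * ∑ c, Y c = (∑ c, Y c) * ∑ c, Y c := by
    rw [sum_comm]
    simp only [← sum_mul, Y]
  rw [sum4]
  simp only [h1, sum_add_distrib, sum_sub_distrib, ← smul_sum]
  rw [h2, h3, h4, hN, hY, hP, K3_eq, smul_mul_smul_comm]
  module

theorem sq_eig (v : V) (a : Fin n → ℂ) (h : ∀ k, X ρ k v = a k • v) :
    (∑ k, X ρ k * X ρ k) v = (∑ k, a k ^ 2) • v := by
  simp only [LinearMap.sum_apply, End.mul_apply, h, map_smul, smul_smul, sum_smul, sq]

theorem K3_eig (v : V) (a : Fin n → ℂ) (h : ∀ k, X ρ k v = a k • v) :
    (∑ t : I3 n, ρ (y3 t)) v = (3 * (∑ k, a k ^ 2 - (n : ℂ) * (n - 1) / 2)) • v := by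
  rw [K3_eq, LinearMap.smul_apply, LinearMap.sub_apply, sq_eig ρ v a h, LinearMap.smul_apply,
    End.one_apply]
  module

theorem K4_eig (v : V) (a : Fin n → ℂ) (h : ∀ k, X ρ k v = a k • v) :
    (∑ t : I4 n, ρ (y4 t)) v =
      (4 * ((∑ k, a k) ^ 2 - 3 * ∑ k, a k ^ 2 + (n : ℂ) * (n - 1))) • v := by
  have h1 : (∑ k, X ρ k) v = (∑ k, a k) • v := by
    simp only [LinearMap.sum_apply, h, sum_smul]
  rw [K4_eq, LinearMap.smul_apply, LinearMap.add_apply, LinearMap.sub_apply, LinearMap.smul_apply,
    sq_eig ρ v a h, LinearMap.smul_apply, End.one_apply, End.mul_apply, h1, map_smul, h1]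
  module

end

end Pool.Agent.P.MP_eccc2e_al
end

-- part Pool.Agent.P.MP_eccc2e_al.Bridge
section

/-! Nonvanishing in the alternating group in terms of contents of Young diagrams. -/

namespace Pool.Agent.P.MP_eccc2e_al

open Equiv Finset Module

/-- regular representation on a Hilbert space -/
noncomputable def reg (G : Type) [Group G] [Fintype G] :
    Representation ℂ G (EuclideanSpace ℂ G) where
  toFun g :=
    { toFun := fun f => WithLp.toLp 2 fun h => f (g⁻¹ * h)
      map_add' := fun _ _ => rfl
      map_smul' := fun _ _ => rfl }
  map_one' := by ext; simp
  map_mul' g h := by ext; simp [mul_assoc]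

theorem reg_apply {G : Type} [Group G] [Fintype G] (g : G) (f : EuclideanSpace ℂ G) (h : G) :
    reg G g f h = f (g⁻¹ * h) := rfl

theorem reg_adj {G : Type} [Group G] [Fintype G] (g : G) (u w : EuclideanSpace ℂ G) :
    inner ℂ (reg G g u) w = inner ℂ u (reg G g⁻¹ w) := by
  simp only [PiLp.inner_apply, reg_apply, inv_inv]
  rw [← Equiv.sum_comp (Equiv.mulLeft g)]
  simp

section
variable {n : ℕ} {ι : Type} [Fintype ι] (y : ι → Perm (Fin n))
  (hy : ∀ i, y i ∈ alternatingGroup (Fin n)) (x : alternatingGroup (Fin n))
  (hconj : ∀ i, IsConj x ⟨y i, hy i⟩)
  (hinv : ∀ g, ∃ e : ι ≃ ι, ∀ i, g * y i * g⁻¹ = y (e i)) (Φ : (Fin n → ℂ) → ℂ)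
  (hΦ : ∀ (V : Type) [AddCommGroup V] [Module ℂ V] (ρ : Representation ℂ (Perm (Fin n)) V)
    (v : V) (a : Fin n → ℂ), (∀ k, X ρ k v = a k • v) → (∑ i, ρ (y i)) v = Φ a • v)

omit [Fintype ι] in
include hinv in
theorem hinv_alt (g : alternatingGroup (Fin n)) : ∃ e : ι ≃ ι, ∀ i,
    g * ⟨y i, hy i⟩ * g⁻¹ = ⟨y (e i), hy (e i)⟩ := by
  obtain ⟨e, he⟩ := hinv g
  exact ⟨e, fun i => Subtype.ext (he i)⟩

include hconj hinv hΦ

theorem nonvanishing_of (hn : 0 < n) (h : ∀ b, Cont n b → Φ (fun k => b k) ≠ 0) :
    Nonvanishing x := by
  classical
  intro V _ _ _ σ hirr h0
  obtain ⟨hV, hK⟩ := sum_eq_zero_of_char (fun i => (⟨y i, hy i⟩ : alternatingGroup (Fin n))) x σ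
    hirr hconj (hinv_alt y hy hinv) h0
  obtain ⟨v, hv⟩ := exists_ne (0 : V)
  obtain ⟨φ, hφ⟩ := not_forall.mp (mt (Module.forall_dual_apply_eq_zero_iff ℂ v).mp hv)
  let f : EuclideanSpace ℂ (Perm (Fin n)) := WithLp.toLp 2 fun g =>
    if hg : g ∈ alternatingGroup (Fin n) then φ (σ (⟨g, hg⟩ : alternatingGroup (Fin n))⁻¹ v) else 0
  let ρ := reg (Perm (Fin n))
  have hf : f ∈ LinearMap.ker (∑ i, ρ (y i)) := by
    rw [LinearMap.mem_ker]
    ext g
    simp only [LinearMap.sum_apply, WithLp.ofLp_sum, Finset.sum_apply, ρ, reg_apply, f,
      PiLp.zero_apply]
    by_cases hg : g ∈ alternatingGroup (Fin n)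
    · have h1 : ∀ i, (y i)⁻¹ * g ∈ alternatingGroup (Fin n) := fun i =>
        mul_mem (inv_mem (hy i)) hg
      have h2 := congrArg (fun K : End ℂ V =>
        φ (σ (⟨g, hg⟩ : alternatingGroup (Fin n))⁻¹ (K v))) hK
      simp only [LinearMap.sum_apply, map_sum, LinearMap.zero_apply, map_zero] at h2
      rw [← h2]
      refine sum_congr rfl fun i _ => ?_
      rw [dif_pos (h1 i), ← End.mul_apply, ← map_mul]
      have e : (⟨(y i)⁻¹ * g, h1 i⟩ : alternatingGroup (Fin n))⁻¹ =
          (⟨g, hg⟩ : alternatingGroup (Fin n))⁻¹ * ⟨y i, hy i⟩ := Subtype.ext (by simp)
      rw [e]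
    · refine sum_eq_zero fun i _ => dif_neg fun h1 => hg ?_
      simpa using mul_mem (hy i) h1
  have hW : LinearMap.ker (∑ i, ρ (y i)) ≠ ⊥ := by
    intro hb
    rw [hb, Submodule.mem_bot] at hf
    have := congrArg (fun u : EuclideanSpace ℂ (Perm (Fin n)) => u 1) hf
    simp only [f, one_mem, dif_pos, PiLp.zero_apply] at this
    apply hφ
    rw [← this]
    congr 1
    rw [show (⟨1, one_mem _⟩ : alternatingGroup (Fin n)) = 1 from rfl]; simp
  obtain ⟨a, w, hw, hw0, ha⟩ := exists_joint ρ _ hW fun k w hw => by
    rw [X, LinearMap.sum_apply]
    refine Submodule.sum_mem _ fun j _ => ?_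
    rw [LinearMap.mem_ker] at hw ⊢
    rw [← End.mul_apply, ← sum_comm_of_inv y ρ hinv, End.mul_apply, hw, map_zero]
  obtain ⟨b, hb, hab⟩ := (spec_OV ρ reg_adj).cont hn a ⟨w, hw0, ha⟩
  have h1 := hΦ _ ρ w (fun k => a k) ha
  rw [LinearMap.mem_ker.mp hw] at h1
  apply h b hb
  rw [← (smul_eq_zero.mp h1.symm).resolve_right hw0]
  congr 1
  funext k
  exact (hab k k.2).symm

theorem vanishing_of [Nonempty ι] (col row : Fin n → ℕ) (h : Tab col row)
    (h0 : Φ (fun k => (col k : ℂ) - row k) = 0) : ¬ Nonvanishing x := by
  refine not_nonvanishing (fun i => (⟨y i, hy i⟩ : alternatingGroup (Fin n))) x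
    ((wordRep n).comp (alternatingGroup (Fin n)).subtype) hconj (hinv_alt y hy hinv)
    (pt col row) (fun hz => ?_) ?_
  · have := congrFun hz row
    rw [pt_row h] at this
    exact one_ne_zero this
  · have := hΦ _ (wordRep n) _ _ (X_pt h)
    rw [h0, zero_smul] at this
    exact this

end

section
variable {n : ℕ}

theorem y3_three (t : I3 n) : (y3 t).IsThreeCycle := by
  rw [y3, swap_comm t.1.1, swap_comm t.1.2.1]
  exact Perm.isThreeCycle_swap_mul_swap_same t.2.2.1.symm t.2.2.2.symm t.2.1

theorem y3_inv (g : Perm (Fin n)) : ∃ e : I3 n ≃ I3 n, ∀ i, g * y3 i * g⁻¹ = y3 (e i) := by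
  refine ⟨Equiv.subtypeEquiv (Equiv.prodCongr g (Equiv.prodCongr g g)) (by simp), fun i => ?_⟩
  simp [y3, swap_apply_apply, mul_assoc]

theorem y4_inv (g : Perm (Fin n)) : ∃ e : I4 n ≃ I4 n, ∀ i, g * y4 i * g⁻¹ = y4 (e i) := by
  refine ⟨Equiv.subtypeEquiv (Equiv.prodCongr (Equiv.prodCongr g g) (Equiv.prodCongr g g))
    (by simp), fun i => ?_⟩
  simp [y4, swap_apply_apply, mul_assoc]

theorem y4_mem (t : I4 n) : y4 t ∈ alternatingGroup (Fin n) := by
  simp [y4, Perm.sign_swap t.2.1, Perm.sign_swap t.2.2.1]

theorem y4_type (t : I4 n) : (y4 t).cycleType = {2, 2} := by
  obtain ⟨⟨⟨a, b⟩, c, d⟩, h1, h2, h3, h4, h5, h6⟩ := t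
  simp only at h1 h2 h3 h4 h5 h6
  have hd : Perm.Disjoint (swap a b) (swap c d) := by
    intro z
    by_cases hz : z = a ∨ z = b
    · right; apply swap_apply_of_ne_of_ne <;> rcases hz with rfl | rfl <;> omega
    · left; apply swap_apply_of_ne_of_ne <;> omega
  simp only [y4]
  rw [hd.cycleType_mul, Perm.isSwap_iff_cycleType.mp (Perm.swap_isSwap_iff.mpr h1),
    Perm.isSwap_iff_cycleType.mp (Perm.swap_isSwap_iff.mpr h2)]
  rfl

theorem y4_conj (x : alternatingGroup (Fin n)) (hx : x.1.cycleType = {2, 2}) (t : I4 n) :
    IsConj x ⟨y4 t, y4_mem t⟩ := by
  obtain ⟨g, hg⟩ := isConj_iff.mp (Perm.isConj_iff_cycleType_eq.mpr (hx.trans (y4_type t).symm))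
  rcases Int.units_eq_one_or (Perm.sign g) with h | h
  · exact isConj_iff.mpr ⟨⟨g, h⟩, Subtype.ext hg⟩
  · refine isConj_iff.mpr ⟨⟨swap t.1.1.1 t.1.1.2 * g, by simp [h, Perm.sign_swap t.2.1]⟩,
      Subtype.ext ?_⟩
    obtain ⟨⟨⟨a, b⟩, c, d⟩, h1, h2, h3, h4, h5, h6⟩ := t
    simp only at h1 h2 h3 h4 h5 h6
    simp only [Subgroup.coe_mul, Subgroup.coe_inv, mul_inv_rev, swap_inv]
    rw [show swap a b * g * x.1 * (g⁻¹ * swap a b) = swap a b * (g * x.1 * g⁻¹) * swap a b by group,
      hg]
    simp only [y4]
    rw [← mul_assoc, swap_mul_self, one_mul, mul_swap_eq_swap_mul,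
      swap_apply_of_ne_of_ne h3.symm h5.symm, swap_apply_of_ne_of_ne h4.symm h6.symm]

end

end Pool.Agent.P.MP_eccc2e_al
end

-- part Pool.Agent.P.MP_eccc2e_al.Shape
section

/-! Young diagrams with prescribed first and second content moments. -/

namespace Pool.Agent.P.MP_eccc2e_al

open Finset

/-- There is a Young diagram with `n` cells inside the `L × L'` rectangle, content sum `e` and sum of
squared contents `v`. -/
def Shape (n L L' : ℕ) (e : ℤ) (v : ℕ) : Prop :=
  ∃ D : Finset (ℕ × ℕ), IsLowerSet (D : Set (ℕ × ℕ)) ∧ D.card = n ∧ (∀ p ∈ D, p.1 < L ∧ p.2 < L') ∧
    ∑ p ∈ D, ((p.1 : ℤ) - p.2) = e ∧ ∑ p ∈ D, ((p.1 : ℤ) - p.2) ^ 2 = v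

/-- triangular numbers -/
def tri (a : ℕ) : ℕ := a * (a + 1) / 2

/-- pyramidal numbers -/
def pyr (a : ℕ) : ℕ := a * (a + 1) * (2 * a + 1) / 6

theorem tri_eq (a : ℕ) : ∑ i ∈ range (a + 1), i = tri a ∧ 2 * tri a = a * (a + 1) := by
  have : 2 * ∑ i ∈ range (a + 1), i = a * (a + 1) := by
    induction a with
    | zero => simp
    | succ a ih => rw [sum_range_succ, mul_add, ih]; ring
  unfold tri; omega

theorem pyr_eq (a : ℕ) :
    ∑ i ∈ range (a + 1), i ^ 2 = pyr a ∧ 6 * pyr a = a * (a + 1) * (2 * a + 1) := by
  have : 6 * ∑ i ∈ range (a + 1), i ^ 2 = a * (a + 1) * (2 * a + 1) := by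
    induction a with
    | zero => simp
    | succ a ih => rw [sum_range_succ, mul_add, ih]; ring
  unfold pyr; omega

theorem Shape.mono {n L L' e v} (h : Shape n L L e v) (hL : L ≤ L') : Shape n L' L' e v := by
  obtain ⟨D, h1, h2, h3, h4⟩ := h
  exact ⟨D, h1, h2, fun p hp => by have := h3 p hp; omega, h4⟩

theorem shape_zero : Shape 0 0 0 0 0 := ⟨∅, by simp [isLowerSet_empty], by simp⟩

theorem Shape.hook {n L L' e v} (h : Shape n L L' e v) {a b : ℕ} (ha : L ≤ a) (hb : L' ≤ b) :
    Shape (n + (a + b + 1)) (a + 1) (b + 1) (e + tri a - tri b) (v + (pyr a + pyr b)) := by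
  obtain ⟨D, h1, h2, h3, h4, h5⟩ := h
  let D' : Finset (ℕ × ℕ) := D.image (fun p => (p.1 + 1, p.2 + 1)) ∪
    ((range (a + 1)).image (fun i => (i, 0)) ∪ (range b).image (fun j => (0, j + 1)))
  have hs : ∀ G : ℕ × ℕ → ℤ, ∑ p ∈ D', G p = ∑ p ∈ D, G (p.1 + 1, p.2 + 1) +
      (∑ i ∈ range (a + 1), G (i, 0) + ∑ j ∈ range b, G (0, j + 1)) := by
    intro G
    rw [sum_union, sum_union, sum_image, sum_image, sum_image]
    · intro x _ y _ h; simpa using h
    · intro x _ y _ h; simpa using h
    · intro x _ y _ h; simp only [Prod.mk.injEq] at h; ext <;> omega
    · simp [disjoint_left]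
    · simp only [disjoint_left, mem_image, mem_union]
      rintro _ ⟨q, -, rfl⟩ (⟨i, -, h⟩ | ⟨i, -, h⟩) <;> simp at h
  have hm : ∀ p : ℕ × ℕ, p ∈ D' ↔ (0 < p.1 ∧ 0 < p.2 ∧ (p.1 - 1, p.2 - 1) ∈ D) ∨
      (p.2 = 0 ∧ p.1 ≤ a) ∨ (p.1 = 0 ∧ p.2 ≤ b) := by
    rintro ⟨x, y⟩
    simp only [D', mem_union, mem_image, mem_range, Prod.mk.injEq]
    constructor
    · rintro (⟨q, hq, rfl, rfl⟩ | ⟨i, hi, rfl, rfl⟩ | ⟨i, hi, rfl, rfl⟩)
      · left; simpa using hq
      · right; left; omega
      · right; right; omega
    · rintro (⟨e1, e2, e3⟩ | ⟨rfl, e2⟩ | ⟨rfl, e2⟩)
      · exact Or.inl ⟨_, e3, by simp only; omega, by simp only; omega⟩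
      · exact Or.inr (Or.inl ⟨x, by omega, rfl, rfl⟩)
      · rcases y with _ | y
        · exact Or.inr (Or.inl ⟨0, by omega, rfl, rfl⟩)
        · exact Or.inr (Or.inr ⟨y, by omega, rfl, rfl⟩)
  refine ⟨D', ?_, ?_, fun p hp => ?_, ?_, ?_⟩
  · rintro ⟨x, y⟩ ⟨x', y'⟩ ⟨hx, hy⟩ hp
    simp only [mem_coe, hm] at hp hx hy ⊢
    rcases hp with ⟨e1, e2, e3⟩ | hp | hp
    · have := h3 _ e3
      simp only at this
      by_cases h0 : 0 < x' ∧ 0 < y'
      · exact Or.inl ⟨h0.1, h0.2, h1 (a := (x - 1, y - 1)) ⟨by simp only; omega,
          by simp only; omega⟩ e3⟩
      · omega
    · omega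
    · omega
  · have := hs fun _ => 1
    simp only [sum_const, card_range, nsmul_eq_mul, mul_one, h2] at this
    omega
  · rcases (hm p).mp hp with ⟨e1, e2, e3⟩ | hp | hp
    · have := h3 _ e3
      simp only at this
      omega
    · omega
    · omega
  · rw [hs, ← h4, ← (tri_eq a).1, ← (tri_eq b).1, sum_range_succ' (fun i => i) b]
    simp [sub_eq_add_neg, add_assoc, sum_add_distrib, add_comm]
  · rw [hs, Nat.cast_add, ← h5, ← (pyr_eq a).1, ← (pyr_eq b).1,
      sum_range_succ' (fun i => i ^ 2) b]
    simp only [Nat.cast_add, Nat.cast_one, add_sub_add_right_eq_sub, Nat.cast_zero, sub_zero,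
      zero_sub, even_two, Even.neg_pow, Nat.cast_sum, Nat.cast_pow]
    simp

/-- evaluation of a certificate (Frobenius coordinates in base 64) -/
def ev (K : ℕ → ℕ → ℕ → ℕ → Bool) : ℕ → ℕ → ℕ → ℕ → ℕ → ℕ → ℕ → ℕ → Bool
  | 0, _, _, _, _, _, _, _ => false
  | f + 1, c, n, L, L', t, t', v => cond (Nat.beq c 0) (K n t t' v)
      (Nat.ble L (c % 64) && Nat.ble L' (c / 64 % 64) &&
        ev K f (c / 4096) (n + (c % 64 + c / 64 % 64 + 1)) (c % 64 + 1) (c / 64 % 64 + 1)
          (t + tri (c % 64)) (t' + tri (c / 64 % 64)) (v + (pyr (c % 64) + pyr (c / 64 % 64))))

theorem ev_sound (K : ℕ → ℕ → ℕ → ℕ → Bool) (f : ℕ) :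
    ∀ c n L L' t t' v : ℕ, Shape n L L' ((t : ℤ) - t') v →
    ev K f c n L L' t t' v = true →
      ∃ n L L' t t' v : ℕ, Shape n L L' ((t : ℤ) - t') v ∧ K n t t' v = true := by
  induction f with
  | zero => intro c n L L' t t' v _ h; simp [ev] at h
  | succ f ih =>
    intro c n L L' t t' v hs h
    rw [ev] at h
    cases hc : Nat.beq c 0
    · simp only [hc, cond_false, Bool.and_eq_true, Nat.ble_eq] at h
      refine ih _ _ _ _ _ _ _ ?_ h.2
      convert hs.hook h.1.1 h.1.2 using 1
      push_cast; ring
    · simp only [hc, cond_true] at h
      exact ⟨_, _, _, _, _, _, hs, h⟩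

/-- check a list of certificates for `n, n + 1, ...` -/
def evs (K : ℕ → ℕ → ℕ → ℕ → Bool) (E : ℕ → Bool) : List ℕ → ℕ → Bool
  | [], _ => true
  | c :: l, n => (E n || ev (fun m t t' v => Nat.beq m n && K m t t' v) 30 c 0 0 0 0 0 0) &&
      evs K E l (n + 1)

theorem evs_sound (K : ℕ → ℕ → ℕ → ℕ → Bool) (E : ℕ → Bool) (l : List ℕ) : ∀ n₀,
    evs K E l n₀ = true → ∀ n, n₀ ≤ n → n < n₀ + l.length → E n = false →
      ∃ L L' t t' v : ℕ, Shape n L L' ((t : ℤ) - t') v ∧ K n t t' v = true := by
  induction l with
  | nil => intro n₀ _ n h1 h2; simp at h2; omega
  | cons c l ih =>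
    intro n₀ h n h1 h2 hE
    simp only [evs, Bool.and_eq_true, Bool.or_eq_true] at h
    rcases h1.eq_or_lt with rfl | h1
    · obtain ⟨m, L, L', t, t', v, e1, e2⟩ := ev_sound _ _ _ _ _ _ 0 0 _
        (by simpa using shape_zero) (h.1.resolve_left (by simp [hE]))
      simp only [Bool.and_eq_true, Nat.beq_eq] at e2
      obtain ⟨rfl, e2⟩ := e2
      exact ⟨L, L', t, t', v, e1, e2⟩
    · exact ih _ h.2 n h1 (by simp at h2; omega) hE

/-- symmetric hooks with arm at least two -/
inductive Hk : ℕ → ℕ → ℕ → Prop
  | base : Hk 2 0 0
  | up {L m u} : Hk L m u → Hk (L + 1) m u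
  | hook {L m u} : Hk L m u → Hk (L + 1) (m + (2 * L + 1)) (u + pyr L)

theorem Hk.shape {L m u} (h : Hk L m u) {s e v} (hs : Shape s 2 2 e v) :
    Shape (s + m) L L e (v + 2 * u) := by
  induction h with
  | base => simpa using hs
  | up _ ih => exact ih.mono (by omega)
  | @hook L m u _ ih =>
    convert ih.hook le_rfl le_rfl using 1 <;> omega

theorem Hk.mono {L m u} (h : Hk L m u) {L'} (hL : L ≤ L') : Hk L' m u := by
  induction L', hL using Nat.le_induction with
  | base => exact h
  | succ _ _ ih => exact ih.up

/-- the window of second moments -/
def Win (m L u : ℕ) : Prop :=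
  16 * m ^ 2 ≤ 100 * u ∧ 100 * u ≤ 26 * m ^ 2 ∧ 100 * u ≤ 3 * m ^ 2 + 7 * (L + 1) ^ 2 * m

theorem step_real (m L u p : ℝ) (hm : 691 ≤ m) (hL0 : 0 ≤ L) (hp : 6 * p = L * (L + 1) * (2 * L + 1))
    (h1 : 16 * m ^ 2 ≤ 100 * u) (h2 : 100 * u ≤ 26 * m ^ 2)
    (h3 : 100 * u ≤ 3 * m ^ 2 + 7 * (L + 2) ^ 2 * m)
    (h4 : 3 * m ^ 2 + 7 * (L + 1) ^ 2 * m ≤ 100 * u) :
    590 ≤ m - (2 * L + 1) ∧ 16 * (m - (2 * L + 1)) ^ 2 ≤ 100 * (u - p) ∧
    100 * (u - p) ≤ 26 * (m - (2 * L + 1)) ^ 2 ∧
    100 * (u - p) ≤ 3 * (m - (2 * L + 1)) ^ 2 + 7 * (L + 1) ^ 2 * (m - (2 * L + 1)) := by
  have F1 : 7 * (L + 1) ^ 2 ≤ 23 * m := by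
    by_contra h; push Not at h; nlinarith
  have F2 : 13 * m ≤ 7 * (L + 2) ^ 2 := by
    by_contra h; push Not at h; nlinarith
  have hL : 33 ≤ L := by
    by_contra h; push Not at h; nlinarith
  obtain ⟨k, rfl⟩ : ∃ k, L = 33 + k := ⟨L - 33, by ring⟩
  have hk : 0 ≤ k := by linarith
  have hk2 := pow_nonneg hk 2
  have hk3 := pow_nonneg hk 3
  have hk4 := pow_nonneg hk 4
  obtain rfl : p = (33 + k) * (33 + k + 1) * (2 * (33 + k) + 1) / 6 := by linarith
  set L := 33 + k with hLk
  refine ⟨?_, ?_, ?_, ?_⟩
  · by_cases h : L ≤ 50
    · linarith
    · push Not at h; nlinarith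
  · by_cases h : (100 * L ^ 2 + 292 * L + 96) / 192 ≤ m
    · have := mul_nonneg (sub_nonneg.mpr h) (by linarith : 0 ≤ 2 * L + 1)
      nlinarith
    · push Not at h
      have a1 : 0 ≤ 13 * ((100 * L ^ 2 + 292 * L + 96) / 192 + m) -
          (7 * (L + 1) ^ 2 + 32 * (2 * L + 1)) := by nlinarith
      have a2 := mul_nonneg (sub_nonneg.mpr h.le) a1
      have a3 : 0 ≤ 3 * ((100 * L ^ 2 + 292 * L + 96) / 192) ^ 2 +
          7 * (L + 1) ^ 2 * ((100 * L ^ 2 + 292 * L + 96) / 192) -
          100 * (L * (L + 1) * (2 * L + 1) / 6) -
          16 * ((100 * L ^ 2 + 292 * L + 96) / 192 - (2 * L + 1)) ^ 2 := by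
        rw [hLk]; ring_nf; positivity
      nlinarith
  · by_cases h : m ≤ (100 * L ^ 2 + 412 * L + 156) / 312
    · have := mul_nonneg (sub_nonneg.mpr h) (by linarith : 0 ≤ 2 * L + 1)
      nlinarith
    · push Not at h
      have a1 : 0 ≤ 23 * ((100 * L ^ 2 + 412 * L + 156) / 312 + m) -
          (7 * (L + 2) ^ 2 + 52 * (2 * L + 1)) := by nlinarith
      have a2 := mul_nonneg (sub_nonneg.mpr h.le) a1
      have a3 : 0 ≤ 26 * ((100 * L ^ 2 + 412 * L + 156) / 312 - (2 * L + 1)) ^ 2 +
          100 * (L * (L + 1) * (2 * L + 1) / 6) - 3 * ((100 * L ^ 2 + 412 * L + 156) / 312) ^ 2 -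
          7 * (L + 2) ^ 2 * ((100 * L ^ 2 + 412 * L + 156) / 312) := by
        rw [hLk]; ring_nf; positivity
      nlinarith
  · have a2 := mul_nonneg (sub_nonneg.mpr F2) (by linarith : 0 ≤ 26 * L + 27)
    have a3 : 0 ≤ 100 * (L * (L + 1) * (2 * L + 1) / 6) + 3 * (2 * L + 1) ^ 2 -
        7 * (L + 1) ^ 2 * (2 * L + 1) - (26 * L + 27) * (7 * (L + 2) ^ 2 / 13) := by
      rw [hLk]; ring_nf; positivity
    nlinarith

theorem hk_of_base (hb : ∀ m L u, 590 ≤ m → m ≤ 690 → Win m L u → Hk L m u) (L : ℕ) :
    ∀ m u, 590 ≤ m → Win m L u → Hk L m u := by
  induction L with
  | zero =>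
    intro m u hm h
    obtain ⟨h1, -, h3⟩ := h
    nlinarith
  | succ L ih =>
    intro m u hm h
    by_cases hm' : m ≤ 690
    · exact hb m _ u hm hm' h
    obtain ⟨h1, h2, h3⟩ := h
    by_cases h4 : 100 * u ≤ 3 * m ^ 2 + 7 * (L + 1) ^ 2 * m
    · exact (ih m u hm ⟨h1, h2, h4⟩).up
    obtain ⟨a1, a2, a3, a4⟩ := step_real m L u (pyr L) (by exact_mod_cast (by omega : 691 ≤ m))
      (by positivity) (by exact_mod_cast (pyr_eq L).2) (by exact_mod_cast h1)
      (by exact_mod_cast h2) (by exact_mod_cast h3) (by exact_mod_cast (not_le.mp h4).le)
    have b1 : 2 * L + 1 ≤ m := by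
      have : ((2 * L + 1 : ℕ) : ℝ) ≤ m := by push_cast; linarith
      exact_mod_cast this
    have b2 : pyr L ≤ u := by
      have : (pyr L : ℝ) ≤ u := by nlinarith [sq_nonneg ((m : ℝ) - (2 * L + 1))]
      exact_mod_cast this
    obtain ⟨m, rfl⟩ := Nat.exists_eq_add_of_le' b1
    obtain ⟨u, rfl⟩ := Nat.exists_eq_add_of_le' b2
    push_cast at a1 a2 a3 a4
    simp only [add_sub_cancel_right] at a1 a2 a3 a4
    exact (ih m u (by exact_mod_cast a1)
      ⟨by exact_mod_cast a2, by exact_mod_cast a3, by exact_mod_cast a4⟩).hook

end Pool.Agent.P.MP_eccc2e_al
end

-- part Pool.Agent.P.MP_eccc2e_al.DP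
section

/-! The finite computation behind the window of second moments. -/

namespace Pool.Agent.P.MP_eccc2e_al

/-- every set bit of the `i`-th entry is a realized value for size `m₀ + i` -/
def Good (L : ℕ) : List ℕ → ℕ → Prop
  | [], _ => True
  | x :: l, m => (∀ u, x.testBit u = true → Hk L m u) ∧ Good L l (m + 1)

/-- merge a row with its shifted copy -/
def merge (p : ℕ) : List ℕ → List ℕ → ℕ → List ℕ
  | x :: l, y :: l', m =>
      Nat.lor x (Nat.land (Nat.shiftLeft y p) (Nat.pred (Nat.shiftLeft 1 (m * m * 30 / 100 + 1)))) ::
        merge p l l' (m + 1)
  | l, _, _ => l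

/-- skip the first entries, then merge -/
def skip (p : ℕ) (l' : List ℕ) : ℕ → List ℕ → ℕ → List ℕ
  | 0, l, m => merge p l l' m
  | _ + 1, [], _ => []
  | k + 1, x :: l, m => x :: skip p l' k l (m + 1)

theorem Good.up {L : ℕ} : ∀ {l m}, Good L l m → Good (L + 1) l m
  | [], _, _ => trivial
  | _ :: _, _, h => ⟨fun u hu => (h.1 u hu).up, h.2.up⟩

theorem good_merge (L : ℕ) : ∀ l l' m, Good L l (m + (2 * L + 1)) → Good L l' m →
    Good (L + 1) (merge (pyr L) l l' (m + (2 * L + 1))) (m + (2 * L + 1))
  | [], _, _, _, _ => by simp [merge, Good]
  | x :: l, [], m, h, _ => by simpa [merge] using h.up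
  | x :: l, y :: l', m, h, h' => by
    refine ⟨fun u hu => ?_, ?_⟩
    · simp only [Nat.lor_eq, Nat.land_eq, Nat.shiftLeft_eq', Nat.testBit_or, Nat.testBit_and,
        Nat.testBit_shiftLeft, Bool.or_eq_true, Bool.and_eq_true, decide_eq_true_eq] at hu
      rcases hu with hu | ⟨⟨h1, h2⟩, -⟩
      · exact (h.1 u hu).up
      · have := (h'.1 _ h2).hook
        rwa [Nat.sub_add_cancel h1] at this
    · have := good_merge L l l' (m + 1) (by rw [Nat.add_right_comm]; exact h.2) h'.2
      rwa [Nat.add_right_comm] at this

theorem good_skip (L : ℕ) (l' : List ℕ) (hl' : Good L l' 0) : ∀ k l m, m + k = 2 * L + 1 →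
    Good L l m → Good (L + 1) (skip (pyr L) l' k l m) m
  | 0, l, m, hm, h => by
    obtain rfl : m = 0 + (2 * L + 1) := by omega
    exact good_merge L l l' 0 h hl'
  | _ + 1, [], _, _, _ => trivial
  | k + 1, x :: l, m, hm, h => ⟨fun u hu => (h.1 u hu).up, good_skip L l' hl' k l (m + 1) (by omega) h.2⟩

/-- all bits in `[lo, hi]` are set -/
def full (x lo hi : ℕ) : Bool :=
  Nat.beq (Nat.land (Nat.shiftRight x lo) (Nat.pred (Nat.shiftLeft 1 (hi + 1 - lo))))
    (Nat.pred (Nat.shiftLeft 1 (hi + 1 - lo)))

theorem full_sound {x lo hi u : ℕ} (h : full x lo hi = true) (h1 : lo ≤ u) (h2 : u ≤ hi) :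
    x.testBit u = true := by
  simp only [full, Nat.beq_eq, Nat.land_eq, Nat.shiftLeft_eq', Nat.shiftRight_eq, Nat.pred_eq_sub_one,
    Nat.one_shiftLeft] at h
  have := congrArg (fun z => z.testBit (u - lo)) h
  simp only [Nat.testBit_and, Nat.testBit_shiftRight, Nat.testBit_two_pow_sub_one] at this
  rw [Nat.add_sub_cancel' h1, decide_eq_true (by omega), Bool.and_true] at this
  exact this

/-- check the windows of one row -/
def chk (L : ℕ) : List ℕ → ℕ → Bool
  | [], m => Nat.blt 690 m
  | x :: l, m => (Nat.blt m 590 || full x ((16 * (m * m) + 99) / 100)
      (min (26 * (m * m)) (3 * (m * m) + 7 * ((L + 1) * (L + 1)) * m) / 100)) && chk L l (m + 1)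

theorem chk_sound (L : ℕ) : ∀ l m₀, chk L l m₀ = true → Good L l m₀ → ∀ m u, m₀ ≤ m → 590 ≤ m →
    m ≤ 690 → Win m L u → Hk L m u
  | [], m₀, h, _, m, u, h1, _, h3, _ => by
    simp only [chk, Nat.blt_eq] at h; omega
  | x :: l, m₀, h, hG, m, u, h1, h2, h3, hW => by
    simp only [chk, Bool.and_eq_true, Bool.or_eq_true, Nat.blt_eq] at h
    rcases h1.eq_or_lt with rfl | h1
    · obtain ⟨w1, w2, w3⟩ := hW
      simp only [sq] at w1 w2 w3
      refine hG.1 u (full_sound (h.1.resolve_left (by omega)) (by omega) ?_)
      rw [Nat.le_div_iff_mul_le (by norm_num), le_min_iff]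
      omega
    · exact chk_sound L l (m₀ + 1) h.2 hG.2 m u h1 h2 h3 hW

/-- run the recursion -/
def run : ℕ → ℕ → List ℕ → Bool
  | 0, _, _ => true
  | f + 1, L, l => chk L l 0 && run f (L + 1) (skip (pyr L) l (2 * L + 1) l 0)

theorem run_sound : ∀ f L l, run f L l = true → Good L l 0 → ∀ L', L ≤ L' → L' < L + f →
    ∀ m u, 590 ≤ m → m ≤ 690 → Win m L' u → Hk L' m u
  | 0, _, _, _, _, _, _, _ => by omega
  | f + 1, L, l, h, hG, L', h1, h2 => by
    simp only [run, Bool.and_eq_true] at h
    rcases h1.eq_or_lt with rfl | h1
    · exact fun m u => chk_sound L l 0 h.1 hG m u (Nat.zero_le _)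
    · exact run_sound f (L + 1) _ h.2 (good_skip L l hG _ l 0 (by omega) hG) L' h1 (by omega)

theorem run_true : run 46 2 (1 :: List.replicate 690 0) = true := by decide +kernel

theorem good_replicate (L : ℕ) : ∀ k m, Good L (List.replicate k 0) m
  | 0, _ => trivial
  | k + 1, m => ⟨fun u hu => by simp at hu, good_replicate L k (m + 1)⟩

theorem hk_of_win (L m u : ℕ) (hm : 590 ≤ m) (h : Win m L u) : Hk L m u := by
  refine hk_of_base (fun m L u h1 h2 hW => ?_) L m u hm h
  have hG : Good 2 (1 :: List.replicate 690 0) 0 := ⟨fun u hu => by
    rw [Nat.testBit_one_eq_true_iff_self_eq_zero.mp hu]; exact Hk.base, good_replicate _ _ _⟩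
  have key := run_sound 46 2 _ run_true hG
  obtain ⟨w1, w2, w3⟩ := hW
  by_cases hL : L < 2
  · exfalso
    interval_cases L <;> nlinarith
  by_cases hL' : L < 48
  · exact key L (by omega) hL' m u h1 h2 ⟨w1, w2, w3⟩
  · exact (key 47 (by omega) (by omega) m u h1 h2 ⟨w1, w2, by nlinarith⟩).mono (by omega)

theorem shape_of_win {s : ℕ} {e : ℤ} {v : ℕ} (hs : Shape s 2 2 e v) (m u : ℕ) (hm : 590 ≤ m)
    (h1 : 16 * m ^ 2 ≤ 100 * u) (h2 : 100 * u ≤ 26 * m ^ 2) : Shape (s + m) m m e (v + 2 * u) :=
  (hk_of_win m m u hm ⟨h1, h2, by nlinarith [Nat.zero_le (m ^ 3)]⟩).shape hs

theorem shape_two : Shape 2 2 2 1 1 := by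
  obtain ⟨D, h1, h2, h3, h4⟩ := shape_zero.hook (a := 1) (b := 0) (by omega) le_rfl
  exact ⟨D, h1, h2, fun p hp => by have := h3 p hp; omega, by simpa [tri, pyr] using h4⟩

end Pool.Agent.P.MP_eccc2e_al
end

-- part Pool.Agent.P.MP_eccc2e_al.Exist
section

/-! Existence of Young diagrams with the required content moments. -/

namespace Pool.Agent.P.MP_eccc2e_al

/-- certificates for 3-cycles, sizes 5 to 591 -/
def cert3 : List ℕ := [
  130, 274432, 0, 798720, 278530, 1060865, 0, 544834, 0, 1069122, 0, 1331330, 6510350336,
  2248429569, 0, 3339206657, 6543912960, 7601135617, 0, 4413218817, 5503467586, 35599960772608,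
  7634956353, 13746160545792, 18212892983296, 4429738053, 0, 5503479878, 35740621475840,
  27010093301760, 40071022252096, 44465880576002, 18281646022659, 22680783044611, 0,
  31547676696768, 10872971525, 9816273156, 31547726516289, 27078846345220, 93467836424663041,
  35877087371328, 44608689287233, 183271341976461313, 36014492508228, 31546686341125,
  236188707408064513, 48939123363969, 129505567009157121, 236197504575086656, 40412572840005,
  183553091847860226, 183838694271623233, 147797044613099522, 129782713749618753,
  166101510148341760, 219577494042066944, 460108303680906997760, 219867627672842305,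
  255043341141414080, 1117327318560595517441, 827944038293492207616, 202130443565551619,
  184401848286597186, 1046963641001231790081, 219880825033859201, 202411919616528387,
  130627071067840645, 607683100902745714690, 1120803837856077844544, 1121921284920480370752,
  535066779035023724545, 238172505575018625, 291366810481606723, 1264955054795541979201,
  220430923404697668, 756464031249308327937, 607665363717598769155, 273911100293804037,
  1266108266639971070016, 905172319268845928512, 5199780993971268836663296, 976743823476691054593,
  273928489510658051, 1125434374103782412291, 832556841827044184130, 1266144018364355063809,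
  978995891708703031361, 4009895673005153037074432, 1122047407773277753408,
  1269603886989713358914, 2805618434023067312476160, 4312200933185377758621696,
  904020805343150108678, 978996459196272889920, 256763184610054343, 1197005878384676835584,
  3107998615805355448864832, 1124353813871007113281, 6097617534555924416176192,
  976726653915546279936, 14006690628589601366351552576, 1345695888123971252417,
  3414804863239360390389761, 1903499997312637659807750, 683813079646575820934,
  5814279022644131919568961, 3117294604159815292051461, 1347984552499926822917,
  16503099131697970217199345664, 1198159376375966871745, 16521846631522809250541211648,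
  4609637370944831646613505, 2805621911932552524099588, 4321943192255970038259712,
  2805548088641725099446278, 4024138920451232497958913, 3717332673861791016038464,
  5530939321777847066701889, 4628822056284726737248320, 22633882868343160555033595904,
  4335887742102743601135683, 1274235017049900077377, 28728352109424071970762264768,
  4019342713789174281183236, 4019491458959074388365380, 23854293555877902023227871232,
  3717260022069953009315846, 23873641016417767075082670080, 3717187369723617612173317,
  1277675758299391496391, 2201085197134820624617482, 11569510277631683938893455364,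
  14065337777529384154066862083, 5238226459458829999939713, 4623806794813868069138437,
  19037621486979413651822489602, 26331080545579795181774319617, 21455794393532515162884681729,
  10292280077710239427253800963, 12807752700575062395569324099, 57768764257566291435019632386048,
  26253993002985484978008100864, 17740170043414634754541383683, 18978714544474638298439237634,
  12807752699422985453381644288, 26292990161268352401505792001, 16559951413574288309163155523,
  4935924677452039935533120, 23949203532165622747766226944, 57848031110429149360735194988547,
  98176404379411953023230264221696, 6135774662676393646649475, 5540318393677467364905091,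
  20217863879703473500601991169, 30006205963752631697710784576, 22712189224320312020839964736,
  4638344054145113104363586, 5247532806365111746068615, 10311925198372359542820614154,
  17779772031361366558136614915, 25169916822432592694589530177, 26331680807298536334942285825,
  93113248966422449124613749485568, 98183891247640745248081739784193,
  30044900964421645536529756224, 93109593779423647865239687925760, 20256544783601532330110889986,
  12788112231935446920754151433, 18998369037271979567448616966, 21513832358402141097216471041,
  77978291355275752780492792156160, 78291412516377335146606938841155,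
  362544358117825575099748305122639874, 128215001294360687671384102678529,
  133362375320738062230399757062144, 123458873749308499980446522159104,
  23970374421093944948719116291, 113711237751704687367941308289088,
  547530078642307506081760830248198145, 504095071817886541145367422800764928,
  28750132331276119512150978817, 113629649184990730712398176997441,
  108718702953889014293248695607361, 300226813105932948279451470887399426,
  88199961971517013570603486306309, 108488484797003180054918508326978,
  83446196044532965483534187253762, 93270563763244655172416579076097,
  123851281389506442871136196759680, 67993027727129894872514738794560,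
  383333988971749507359136418017587201, 103255769381846403810993625120769,
  320372875975212305264070187930894337, 320042966307861090150838907481370626,
  21532584729267969827459612682, 52619050081664170505835968249859,
  526461970816127965350588592272199680, 526147516716481343013358531628240896,
  98582489514062892818393702600832, 98493452438832720615242875297795,
  113478699378035193532465944731840, 118626073380655414069923489001473,
  123779444292937698135019550425153, 57770176930113837272644165869632,
  103726148222970094077610973237253, 103648196978762815198511025905668,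
  93347316366880840035966999097412, 465143250260108672029424690418421760,
  321670552849793200657266347327627265, 31418561892536672491760013315,
  133450308065631676697567260061697, 93509486195551388440040975933449,
  485582930279712659661713486209622017, 118551740191988908416991810040001,
  1913057385446955884226145835691614150657, 83206092524548304655087937269890,
  444962246571306443505794179955965952, 128612420556021407269747849187329,
  342120453304175064745673683907129344, 1232472851456081639797834020501752389696,
  363538516893473975632969703296352256, 2165631139646754788319135268197676363776,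
  236946012170967984653640459616563200, 2160501814444521196009645821008715980801,
  1909215116281910017480723483027294134273, 1744347673852978315841164349230979227648,
  404088202340937542998786680333824001, 548524319121096236879318437503447106,
  103411788531242880875131081904139, 569638223298973112949455054189387841,
  383344692240945253402908701194203136, 113793136166911217912020789907520,
  138994984965639660134808496660609, 322319749690372500469282688264065090,
  77978291690645669058290659950594, 1485026165743204705488210955730214465536,
  671541969923391196322327473849127104, 1657867029113457945358436802622776414208,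
  466107138866060321357681299862872065, 404433167971074458768134257966063616,
  383015181094758305590483598363070464, 2326693976797993574961283089397755682880,
  445343022073319372579438044157329474, 2079253397722186200154501062031732649986,
  1998169516106791046759412013763278413824, 507320844211242897059182038995189824,
  1482429708163209673707394999654572896257, 1992749716924056810857049096927245000705,
  466766085723588510433759294527135808, 528100015632696296156302630869016640,
  445343028302314450892002753131057408, 2591107775202612885676422947654714531841,
  1407971836159557709764292043161486249984, 2085899537226980344139458071809950769153,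
  154439640352829534595182897434694, 446620738441959280280296536759107585,
  1739033657888389089542755700901606338624, 2670987048468986036529777385922011873281,
  384318166256218206195608230939607042, 343094088251360192574868162676822019,
  466730824354366977046194234208313413, 320357659408813213705909097239728137,
  2426180291856088570516849443770565406784, 10259629385595564198420923053788712676102144,
  8876385531915045955917433658093300758093824, 8206368180052439266485366646855338392555584,
  2753397901584262554868505317883920257024, 1493000565232855631160308543483925516292,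
  1578154867456422568760141550244363538498, 2423626979795437970905324183553547976707,
  2254711807225051097465780101779349078021, 974540297893556143106571587487780864002,
  2593788293631579752506852389330510684225, 2756016441949693190662533012992266080256,
  528074890456683464640042333020413965, 2083282959897789450890182311841452285957,
  2168456738066255876876113709182981783555, 2503525414948789276547826205387875950657,
  8533043158835830905694089568320933295562753, 1999500676158090205362270570123574661188,
  11985879214439972200458677190889241203187776, 2339967440298816564478376763212404371456,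
  7858013410863824198373877451119004494598208, 2417105171150812106545352417522561060864,
  2849040628484251754388098215203970773060, 653039969551324216153150413505589507,
  11320639047598658813820636282231661718163460, 2850329296738783529446243581730567758144,
  342445526550494904908499711276408908, 9927181509910307488983114999124154578112512,
  6120951662915094629810579579514518118084608, 633254171878917717854659103226085505,
  2085961546021217207984268088300610003072, 2084716378547528709751409933381746319427,
  2420948069309534663902436320092910530562, 975848751630085623948132193547617374218,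
  6142810816646599220526733590134572540518467, 529079119799258621716939089902846147,
  13041524073001018698835556069760193633198144, 1571447069348540443295542407496089509955,
  9595228148238128553199983279258863405371392, 2084675489057521972549635710080428556289,
  5407554914156016104629687078340733597667331, 1491734953333001196733260134695821672448,
  4705040618619197704416140395428435705761800, 10281072514669699543592836419300530229612608,
  2338495064836145587078694936131232616448, 7144865356579127865717770091963460427743234,
  3016462691512435640121865308622409707650, 9252057328327755605363884547793952801308675,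
  11642709870465175886429003431524055862747200, 8870177914187825193196510947272131393105922,
  1483655708992592934496039656823380574219, 10619139180246235048127644528904115205713922,
  10983831490081685963650794375574710829457408, 2596469785685551905480746108908249567234,
  9927693284111986093122448123063034071490689, 7858267316462693257945483100285199203700800,
  1840054037135100029681377711543550509120, 2508801123689846747243336863887753752576,
  7847208058063239238182031902497841013608449, 8195828816318478325722947322942630836576256,
  1144702904808921837026989591106247008270, 14087041770634596719509539093294914034745538,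
  1574126958938668076464351451752060997707, 6115423383216067635676203739843919050215427,
  9594895656238568259212955508750416141889538, 12693418056740614748251899687232506398519298,
  29488354084116300194606593858347429264972341313, 2928857959677818587743701488502222102721,
  10619228136927834704030651269140731237240832, 1741651219709337819520142229711861637130,
  2085921934790993117261473636379988910092, 44990514075516497212038755913757025460290326592,
  39412218525508807461271294916855711405976072192, 7536953095039706319959857277255875681853441,
  2507473183945242205275926232017647984705, 2175103887498725223116350647240665890823,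
  6828742931921837123700836652842072888614916, 52037195580849537052496332162625231800586473472,
  184640833321832094700934318089512543964754451107840,
  10983673189901497262496666614633363036188673, 12012088852874208731372675605398564471328770,
  12018721720373643829282985243349681147756544, 30781133077151830275563957190592005378232565761,
  2676326707897648462781044306405418352769, 10314161069277196667333741868666950949289987,
  17978392349734634926619768648363581982386720774, 11664747162466211557065964812729694579880001,
  2512811493946085171321012011606922793095, 9595241337306209855873798432299112758525952,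
  10624674046952971593439056413599456731348993, 8571666640580966570175619792308298754564161,
  32276677053314703698177137286462229058616561728, 7166470586240671990928156583322627541860356,
  143803172821277775563971009898017227806423011049474,
  39278751712750512944605598569364847517956837376, 2855688751162821206583564756677745725440,
  7552944954284555422557569236894348903456897,
  213424027784853931269303428554513736745183514730496,
  13052671146775436980876405922471496148066368, 6458688560166940573117318854605298087530500,
  11354240706959415969685502708601737197129856,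
  184369699848779409432562491567686087358633094684672,
  42290729774933788588307882944041786057100390401, 8582557110065613539835199819752805147631618,
  208024992621167156031037279788845051750928489914368,
  54938725899563860628175441756839455836632276994,
  149646324183593373333939386636083820506090530152448,
  51972721770469667600881902332013449670585229313, 10646537230297126125580249356609029051523073,
  25048801408239487809957853311958880378127941638,
  137594555838831917564089405463165134806536327274496,
  43607187398904766420150263898621470446916734976,
  1088557695193518475596266233043643413808429968207912960,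
  40774311429547556787760733022755186838860230721, 7536951745996185238060366643501263804711105,
  8206635442185859431116944971637061273022530, 33703576300865574347358526476671058691181801474,
  43630173218741534866183055710494281608544407554, 13074874695507318457270835535336021234040898,
  36557042334692283085318848633456309293130489863,
  32298618464280870316402043521088186990551388160,
  132479278493771530175553392840178011341729609035777,
  167284207265550574861646794495740218790355948552192,
  13412179528791688875804747100278932292513922, 52082815787802307174162028950565429735123070976,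
  49251355653517607666966119277193906373790539841,
  29397087296065541787136184722855082618561802240,
  30804495763907007442470329684096756948186714113,
  25182241006345504070904339709730218778439233546,
  2231731516902514261545264864420567333490605687194354196480,
  126631978141804439728233490853010037062321272524800,
  11348885271054334685000418080027525283340293,
  167471221314862587821827155942776036257653196083200,
  132660560549148805323745568837754247909564666368003,
  46550558583530619165406450077763617332260511744,
  243103798271280849896632328523716125719180656001026,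
  30915634619493728635653663550538550711019130947, 8543767433917325677701493740633532381073424,
  10297158770196507601274068180442453717352454, 49273313649447486887015526479212638383148638272,
  29488043753265881086646025883909046224160075777,
  39346720991416178645252612380949900584903266306,
  25160299515585402822151023165802839687855144970,
  639187586147513146712872617752539403175833582470176768,
  144251259625047459933125892927603936619326286897160,
  20832904071359272080993450602415587734025736205,
  43675129284881757957901092016631817497532706880,
  173766677093641598117142025457707939944069331697729,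
  7973533289613087600721020786582670125632523401924601346007040,
  144077158420685864259299521208145708252389465157637,
  137957098710689947179085380571974598431216511492097,
  33815787988329462176582624910316487690122711042,
  29376899281733410469806509646087341433090777091,
  143985838274122528237819180014367528862020815577091,
  120967142503467738350301240958100382753952249696257,
  265669924439769762656603311122456934768800327807040,
  144355428497161607485311625671091196168115474407489,
  56542997412058754927637092066780350523454795970, 10319025921713204316396319212268063011405831,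
  39459248881078863319964743152111075255095144514,
  39390260372775158804533082837889603086112280576,
  120593246488666498987657918043943997856447998504966,
  26565600530905045356475016933757905108449419276,
  732361792437963120515864547172784082239940072269160449,
  853607607065378282581931450659202931377328989860794432,
  45256423651685131426058766636906214648982843526,
  56452078906956021146104466472072392603373424768,
  42269501775298613226786819763548839204635308032,
  33770140641284199298095344085613238534741209095,
  155762057238527718344181500220944849825094481522755,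
  108905516189420281687287006452148849950599179177988,
  45122957430617975884139027743482046017054715968,
  243103818513752326064678038714513815812748564263040,
  132569306634975289221135358547453014902842413305856,
  57878983678881024852057085231599965034292981761,
  65018657626539180865292290046730382316913840322, 12046036318921243250739680175847093848260931,
  35108882339234605989737063342206506801902166087,
  156048847942337672197472170216028725314056899272705,
  208213366716167374607966738568753526226213109260290,
  56498074695169643173812639744401594360243163264,
  520543608314020421563246295523536473836371521264947200,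
  23621896720180807767834213568772282852409954314,
  42425623743988369541477111702930483120929784001,
  97303441636817873975852377895343624846599690432520,
  108815532666210657984578514607608677306065010065408,
  5057868099752415941039817660150455271165935421883031232576,
  48024145502510192504068109162308937472374223040,
  568434096843594255355687923633596571045952664977563648,
  853227796517858869043558666553052090962525314890338304,
  214060868107297081146296583243025681604826510950406,
  155957593292816431383832733888958770365694147325952,
  663466686582214256876203817375112659288684711727370243,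
  173868057343423177834170910042608774357566280183810,
  27926648502353472418033972494310259392120414274,
  46596200580415984947140047716217336162018693185,
  518678919262214274463616816138641883472353870450266112,
  214155045907825452066415525683034711847401016795137,
  155683604605699440783667442484397970678942076792836,
  60693364787141341654812990814808922955920994432,
  126353596572668572986376564603148657174674489511944,
  168284641360773676377302820849786981524477644668935,
  4264347153372367073277484249834303646298664535493804822592,
  138409602439973184073711428864677761307803956834370,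
  830732538910375834775513651877655350544802902866149377,
  167381262232536424255261672162456084250090552168448,
  23046217183551744648698384336404207196852199612657864171589696,
  208571696506014809105979225879653010740801274925184,
  2227162828892838057981432681387888023547567226973877198853,
  202263192710821436623656314805835488168512712114181,
  91364663284958066408822726630499111328910546366477,
  664606480860043978262889805230214018978721543632986176,
  277548929989595134156269818664116295172524038164672,
  375352368126864652429639055772272122038033477859065862,
  138326846476298176222760015189201857791952070938629,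
  173220197708320374518331168872829207968100806828032,
  103056699049306027461408303754495798760149109497868,
  161803599515219097048196021083438364117928424009732,
  25094110772423185500894387452095739296947458126,
  53754734512212403796672430327643876860136804416,
  49452438462874801653787143029030622602420310211,
  155400964617793363707103221290581192567974292402180,
  709521444871022243958430979986300020980790870745030657,
  237627473304609806271042453068557075161640873246785,
  4084832592180688395171645528234147528395779068088748871680,
  615588077081204141751542616788698752279117110398160896,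
  520157863404045140022339168420263383306403715328806920,
  10736166214694339894738142329514729576089919246606640368332800,
  208306252462344666577437123280779999829511748984896,
  2728429975005412451896024102517102136653314576308299640832,
  852093848313829431223952415707461046146572196308590592,
  60848092204257604192342205772644260758705688641,
  254985681352420915775453032705577020133338879115394,
  3603414204032456794052606749744446938413496119712614457408,
  3109952136634071112893490287394967853393395465109710843904,
  15177060756001355128838515883931181064413763,
  4365540481031207779642896159462482203477215140585555894336,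
  997273576298103296081134100972771896577762472068132929,
  902632759047984019904559224924833183774516249360613378,
  173410090650334399652365897594100185281916741898242,
  2624200816869280111484263605609475483779869603620694265984,
  470782490638239634707852698158068963972243834666262529,
  997647543739597327723620093577911160838018056635838464,
  3318511863217889314618937774641933095867114230044682375169,
  1163762097997499938407910464905618676251599218185867264,
  138326867720638055295608961223284507169392329023498,
  11608668052640431047096353427597533632390607085438220936429568,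
  950879771086933494889356603348801677817658424265568259,
  829668856858793495031835017768192539560147319563493376,
  3019629569957260011130039624202611306718857565900592394242,
  155679301269751135068635585080806114273080224813125,
  190848155924204484147164240157562813290589785989128,
  132566496049465608151413543339304178997459436224518,
  5641773986494703079221488560679707726507734227426002624517,
  760410929005734087787253938174370252043287085563007042,
  3497768190675022008123939618896388315205772825669352562689,
  4774503486473338906512522054969004061288036830277551788160,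
  4290259577851939592241126904828105165637850270130861252736,
  138234052378716553301983775822521092011804070309899,
  3508662907127242182775101358357877889873792384705526775809,
  785133777764219662135737846955980446226857924718526533,
  91090609792170171860301482947162072918130310864917,
  470770982762034669810580520646606932618764692587085833,
  208396101135569393021302419420113705309948256481285,
  854748497513710998280673591475861915057360475368730690,
  972983521849937218943865127427126586095656296767832128,
  202735727748280502005969937961277915336118986616962,
  238092646607070088153735489438042194874378711216130,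
  120323497382707877227024110871841143500825503821842,
  3893320434716526931450775388089984456234720001270377103491,
  208387603179208927000434478321071677566788777586820,
  4278118995557001547291998688133078572870999199217227411521,
  759692608110559613487746304552246696430089308861923335,
  685950434975812414315678375814525771223113882212511746,
  2722301870226636935713129555741284166813086507215572193284,
  544507127137727830885926395229097816976339257031946309,
  3793683518870122291094185939880271248301899192531428057152,
  214608976203824478021912016044275352411253171318917,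
  2326822198785582595626008778360786803519065078761982816259,
  881271453882777690961969697718139864931677606332633094,
  547125681307259139622108839644842130575745328746381318,
  11570915003683331064877607153150047948338162147326442168655873,
  13216205420557623240719950117774753473556815738561523838623745,
  949417544320652624616994840655334989320480729127194688,
  616336184681023695664928676419595081474184769156976648,
  1117391579980649501787539969801431967930768548625149957,
  664215524978134789325270259435558052826320297680756737,
  711387049012657832355523094588076379875012176031273027,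
  13579802033909596319319725234548324120432874531805400771866626,
  594279388917915792504948979355572533361150198334930954,
  761159486210518248478199360572393492655025439164117000,
  16393091832980295521192438736158012422495165697919089761595393,
  4673548893455965917713635456148556521391553623733553078272,
  220187980450855619760109136028198967952865361440835,
  202825686509147501178858117496195357552225572393026,
  14364131745800319198829310408024957117429489816830348697542656,
  2526071704226550560305469723677826232457826004646232608769,
  21960004294339022758399767962777886670890531560523323883135041,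
  114845810654489208818410811169550569065842459099155,
  13190707523237893117181794460396496439252591045290080510164993,
  973737939402730087877927422347541473672765921788440834,
  828926312778912547220901026449958623047902230282248257,
  3109976824683788958522776389228764778221902479095096696833,
  1021213345808356350837313688610289565909215974861066307,
  149923277192591338221322525290812577566069512548360,
  4193616573056359590502949721725432739029172039933422747648,
  15193493957387109919742813781095863016331608947685154378506240,
  3704846691463778724417682527090573854423702114633813606401,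
  266604928856801048913718559570607776427914924400961,
  4196874288529589447078307286525602498494640340331573567493,
  3507059687608408137494050219097365131517545075071978856451,
  2527484076112013868949607548085258250239475140550004609031,
  185644389581200787401153703916164626221046147383437,
  639153330998353804761963010187015638516314712945516550,
  3505527577631258331541991298531157778204867272210964037632,
  5076428668705022030573133666788727329781333837728373309444,
  615956651042189519935975912061766055450063431094554626,
  854292305058764308672537409097636079920868553021235207,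
  782485728139196599011597570418903361452444512257069185,
  14428067649473370255199043760853831570889860940400765488869377,
  4088113511371836327136845354809994058039059106493978914817,
  19557641296670305250060077936303465968856295956682793307095104,
  23177769597677108040204342264329838489571980065488529426755650,
  3015034322810529319603449791645424381281589904776324464642]

/-- certificates for double transpositions, sizes 5 to 591 -/
def cert4 : List ℕ := [
  67, 532480, 0, 536640, 540736, 798848, 806913, 806977, 0, 1073154, 4362608640, 0, 4396163072,
  4379648001, 4396425217, 0, 5453393985, 0, 5486948417, 5470437378, 0, 7618179137, 31133211566081,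
  22475614982208, 7667994689, 26873678012480, 0, 128088914929127424, 35602125041666,
  31409180254272, 31205169315904, 7651750083, 40341638230017, 163836374443892736, 31410254262401,
  35740655296641, 49073273970688, 35671952085059, 182418123084013568, 49069078892545,
  48866091880514, 44811676041216, 146675267824787520, 164966674544734210, 35740689125634,
  676856701847152627712, 182981210526720001, 44744047349826, 164689736144531457,
  146961141922279552, 40208529117507, 201277152732655680, 675722362091202940992,
  219018805753163777, 897047534992907051009, 201848898796130368, 164980008288534593,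
  53747372810308, 182990077487235202, 749563095912590618626, 749545371717505396736,
  182994543162966211, 823368368013269540929, 678064524307034546177, 823350366947395248129,
  256741261922017280, 754175072204235477056, 973194124951076225025, 219032137399288064,
  900578366036462280704, 900614126346452082753, 897137620320271478785, 3684118137683087540359168,
  901766766514578395328, 826809980285282955265, 970888567886810464259, 3977054703669350053978112,
  1047017415850442371201, 3386610220206999101509696, 3391331415749568657891329,
  3981556898459373451878465, 1120768644959636574212, 1053917497828630863873,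
  972095532586962538564, 1198032958718695194626, 1276431620894505054273,
  16328701767415242551759998976, 3991150394319344350015489, 1123111088581708632066,
  1047053735055986806978, 3688920074054514447749248, 902921663020184903745,
  20021970146338220690999877632, 3991296761597575844864065, 4888325068442651129823299,
  4000667725324342933598208, 5804759277705541210882051, 365403866999062534,
  3991224163861854759170112, 17624675189823311695896121344, 4010038707069835727880194,
  5795093184101259359572035, 4600409422133311155224578, 16367699291210013705838792768,
  21337602633957403024270041089, 4609929149317121309151232, 20042828840246258962211815426,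
  4605206728513911543054465, 4921537295686108424183872, 1494351808804539891783,
  5837821626279366110748672, 1278864708669635829824, 21280169287733484761012252737,
  4600631972016896433463488, 6120938831859758806622212, 4912086817257816400351232,
  4619375052959346617499648, 21377790121489535325845852160, 25129091513339849523977535490,
  77418509710955097154870145716288, 17741053335866482658954977281, 4605209070394583662481666,
  25188026869542175762712633345, 4897919717813607675486340, 18881674704845244279664419073,
  92313423615824294036246232309760, 22576444868908632325392711744, 6116362922172824035815491,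
  1721604316819093205122, 22597308138762117980952477696, 22558315556424961896618143809,
  20139855027085614551119962113, 17644343924641993775115673665, 82413617721547242987835030249473,
  18940912144947103402319683712, 5847196085094117468029056, 21338514274410551327199604864,
  22577351563291639239496196162, 102615599615409929535059485007873,
  72272451912450201450666227146752, 6442504834192513407660288, 28785804057949478719980847107,
  20140464139763878744321175617, 27587158906260312979531120706, 107922628918784092147322036957186,
  21416485268562419280604311745, 87563467632584845713570123227200, 22654449067271903811763712064,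
  20178568989871520615322624001, 87484278462650647882085697859585,
  87641496540683781974920132304960, 7349056184551262565707969, 28960210864730264727645335552,
  92476871600508062793391147589633, 27587763441841048375068737539, 28941170211590210034753867776,
  118226120829181750195167519051776, 97551186607668118855062947381379,
  107847153568893928304862326177920, 97704711422342186229746566185026,
  359643662765022368192600353190187008, 26387919030462204690201317504,
  92714555785818284295612258861059, 399894258146479395408466752098021378,
  98180041707076889717077525930240, 97788890754570190039892608962563, 7349204947177077038399747,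
  107925182774651833341285015236737, 98105804306822894930017009278977,
  128208810385161195141892940259330, 462500908019973834772471582317617217,
  360292701091238753077897563782520832, 32655004648786602568811286592,
  379444524892290452443237577285443584, 123065151383470694940233083142144,
  97705949674059983904382095470721, 128684237993298947461134141886528,
  112917776219684484606802604859392, 505033363596292732312788415665410048,
  107847173525838406021743536521219, 36388167505932723750605185089, 30082996224475550358966915073,
  97708425856370009845665077420161, 93111992878694336287240831111232,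
  103099752357662471743504541564928, 443699595876068738380776460689874944,
  463479774482715024319548807220826176, 567336008896384414095077816127467522,
  113077490139171236969506145312896, 7080326431404338884395328,
  1979558036846119479778601824290723082240, 128450287585043025685089214009408,
  360298169091437581781196988731371521, 380098714326305189086780060598550530,
  153883783518731377019707564773379, 2584316205194484361750193566942121701377,
  400873051552015345562863929603923969, 526796632994234798009452966814425089,
  1895795924211616654124681994975324680193, 9205468576122953598001154,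
  1894549443371479521227287484141903560706, 133440384885884347075504628068358,
  1725675834615630830670821115398824665088, 2067266005997010397492722964758234673154,
  148813163593484294111908936564865, 159354145344998048469568371048450,
  8462249863411043782283979086107234143580162, 154116536798002437047562512642114,
  567345913596912530860765317457014848, 1902462179110552646892977719688548339712,
  1644592607267562288860956188779848667136, 1980908054393491480890311831280270188545,
  442081758075371797640427281392341120, 1822771775647264927439910180783621939264,
  612140173556834641872005723635060736, 123545570367987397725111112974466,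
  164268862210713557034695624261639, 7438764307409435134580296163740696831070208,
  443714731029223936160785698231169089, 403459215995772839754430478752948225,
  1728397257505072274292699584090649923584, 1899867014695102048360077833665310371841,
  529063267801746637960530558946910209, 8130305723602886509281329371578583319060481,
  466117289937189168789423640634200128, 7428046701190240834663108720805280114544640,
  9169783263185199380823474597904031704162368, 484928347125443346255871419140292738,
  154205630716144620698287267393538, 2165629856551538467860108721022390771713,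
  570941135364532622531095509903097920, 466116810834149332458005915211935872,
  2412990863754663684441971046122888376385, 40317488543275454790793961600,
  633264542022516065222039171762511874, 37561876920930356491041207597059876961047023616,
  569323689990228320871104767593291777, 609528654922077420962688204956520514,
  692950130067352547360850161281826822, 154364204311772634243088866353152,
  134080477881098398502038266732545, 2326528422013440454759808762583695769730,
  485587764379341941563506500473995264, 1986329785948710321540921569485087592451,
  1902568332732737113155966804991742320768, 2498020916257606393328145211138173841409,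
  1988946394263617486017191011457672953859, 159273814368240193635946256429124,
  2588533988527293200483360654975805431873, 8146810789499505723124193889844346208661634,
  7809161601819914627592998643373272917090304, 2242828287271598839840229806595209969730,
  758147851540229854956863784814928002, 2244159137935685430823663434839916036163,
  8130222065990299402356416506024592742289408, 124416016910185674994614826188803,
  2161787906589332038177395364421161201729, 755242637802722915009419127275683840,
  736775823246221582985029732931211264, 2672317245655588968152083615999314116611,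
  37785115091888121424096792832, 673484328927442945789859755377311809,
  10243287730996198896510770055825219746545731, 133842833609455736870074391998465,
  8141281242580567667776633872907813037547584, 715387940710945119643881525483945986,
  2335939150923760176519983290162421964800, 43246819426482090965312342478784521567618994240,
  8849073904431003105284310616749409932681216, 2932617780764920187563914538494418755713,
  2075408861440776271868686392534085152960, 2241563020091002718057939736977748545539,
  694923149077639725967730159047422018, 9551758404772051013099746160502247044681728,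
  43336735643146172437499071234551338392990523393,
  33347047480630970953031076115334369844325257216, 8843795602053007919399583351480736088072192,
  2837015284093701771632741105639950422019, 2764032983295203046762777281092257337346,
  2240212348439655985315603724266037071875, 612165613323179230205719110121693184,
  2500783573055534263519864922257924575236, 859108858658147074510059153205276681,
  39077979485632699752675337258564836864567812096, 7106739126561662493024626150424133543137280,
  10242954199279368672999764195607773625212993, 13019827063306677098182084226967038515761156,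
  2502072221180000440457900581971971821571, 2159172307891376232982682436734917570563,
  9181355688630334587562324349102973763997700, 31919805232443216627718165807136802035905335360,
  2163117469646065933935422608786321842177, 736831831425461801589121582593753089,
  39145241318669521961370672875445642607489978368, 13073769835395194892363928913962287837487169,
  36380678476787967322381382727036385329875787776, 2593810705773421461495589200096316125248,
  2416980216217856791796479583131389935619, 41865921341196374897910061042053064787155759169,
  11648147699319226398698434462065247029317632, 54867625851548239701949683298052654236772343808,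
  8179396896913288024808393191380602225443011, 37740305087398539526026955574185817821172736000,
  2764055735249109050107785252330843942978, 32053255811322804528692781546454262281398915200,
  10232148967873763775307654175332993781219458, 12350067748797472442077936323776334277394432,
  7814697941267447341067818896168119547224067, 9878255326725729732695845633962212961304576,
  37651091301309709710058304972321565857871827008,
  46195069667499267594243004828548755905841471489, 634567694482725044438471166655737921,
  3093577710820505167177833321189223985157, 43315823332438578250133817916950076946100535298,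
  10635222715977656005175972027689943513698432, 13400865036853848969886278080230754024169473,
  41932480403333406175835777490066672769948725248, 2855751723526215318575082001652758355969,
  3444598711132388592106822622676561461253, 37629841438489612842742556873900311922765742080,
  14784022303726349710660309367561486514810880, 8881917861311854582676776852005985670942786,
  2592564569820962337862009689424538136580, 2760025214895632725273655902512842571842,
  200707158481526907380238030203011168468010147266563,
  13047390018453976139630562150582545665003527, 43338478314281078077878078958872309099349159938,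
  43382388352237778741414402987352119099884326979, 9203305210714127464931892450131302936236225,
  57900543619956034364793212332318129743617863680,
  177601491236761322482871691621736572476118111100929, 3021863998686096682872019397232808173568,
  40551592953138911248210964916311324412848648322, 14441534748209680120851034854544353159049217,
  37651445200310297031748112512630663369804492928,
  41956180559787003086067008453056515201688944705,
  43383079889727956796359528194362563159762157634,
  56338081153067764266240451896027532092026413058,
  42045416037546836781882572358846968056649101314,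
  679968686867178620042912663404779499466637467315347457,
  166832953738945879830114858752689233261593140400128,
  47709445982411708288039915478770086213389135873,
  56227628475565815229628153102772681571144327171,
  39145965443575907108250748874813213750484811778,
  41934239241847944142334412999405176400116736003, 12002561050456029078303735020088133735956482,
  172860220065017388159762797750589687137488001572864,
  54868328113374523079858530624892736833941950465,
  41978481476435170906226599556537708621187010690,
  50586950077216743102652472820309090928787992577, 11642366784557669138107372176150067875418240,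
  12378064034249407671125075561537522012270594, 57767452468294070547051226739386908183850401794,
  13069266433347796898859275104849580520132739, 14163440458815790737705250202436925968625856,
  44789779888290596622265275156854887816364851205,
  53574885059363567954022591282361718673347731584, 11321315749953483839494755200237253561958403,
  14506784038454909120467263350985457295179776, 2940822964052179202885756368355201388800,
  189396312872107693443047322755964900620064340586625, 3027265296113592112301148519529221988417,
  224739290340639483392829093628975343425384595591168,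
  846860386166026583007306933195254312345517716027236352,
  44856682720689109021843067668410532315601059841,
  213512629020775361246573300713899186557312674570241,
  207840565801378625829423061068381952755429089751168,
  2700865638596167691063658304483951104333615357292643098625,
  53643551835777429952686889052106871454231695488, 12732292556122301472933922206763280465944580,
  167198441382172174726877718816910649247255065272384,
  254239139471381385148058853204940118597566363869248,
  681827722615303939905260267705844456758113968629223488,
  54846387304634316986529109487702873404002832388,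
  37697103267456647872485284938909394021899313280,
  657140399567273362298846646172353389783856332027469824,
  56342986756779830419659349255261178257801240643, 19340667776789886230452477258227468701319178,
  49092435532392126079984172945334696396137439232,
  62005971178733043803212645208519133105368879105,
  212773200729607348312600599523468995745886801518595,
  207670857849265658209212908708941357213243299872769,
  53465466925368884675821086940852755771091615751, 15513768724630436571213621287375364149231617,
  53618811518623074290443628762021505600171294850, 12715796879876182636778045104998569839177728,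
  179803781478727026880033499360645030019485860892672,
  919444594779625545472857200562637298609320223236702211,
  632452442710487708518548236486451409582432271246561280,
  195881791913135798432293562447417681342359639691264,
  15884414604126875690554810257293215506411524,
  254434673091465441327433769197597800157973802401794,
  14119974829627149996353493432722121271550017, 42136018864378545337870508159308583648468172928,
  3028657815451468765078655877615860326657, 224747855939783188547470754530247545961873775530048,
  3280220770781538876244276383983561681502408720009575010304,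
  62139449831012397892296074230159060635973341248,
  214057769316470655842565702656882484022575542845505,
  39168968789513939181713904067957532008603471873,
  729367819091938196518577044846808963674407187281354816,
  3084012732189025086618381423908478957755057729229289951296,
  60645299478603065103038164917273171706813640710,
  52196099368547025467713087850900091148462997504,
  55069405640337154797782809972666177672836829314,
  776492199506171249883767343100763420764538960945619008,
  184643710836898327193730988893457061893754476568641,
  70724539665263871994285787791608663164555128896,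
  277715892178192117815108765195228416787024261169155,
  55071142448184383685931054628266699182855184448,
  212965927275801434909145672926612365551239208657026,
  635814170508232538279228996050246191402896985111924800,
  10259804948541254920932842522149575306281478,
  271782802596414944066172155412728709010631242055687,
  173041548132103106198470701845806014279750971039745,
  236619699454246930202193552803714283097917265571842,
  943723151368133901864308608611210156326550019133431873,
  260738827571423392485950768069456574605078074503168,
  57814488424043167246804373680540529179155259457,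
  681477056466350060421481391102611699203974301347483776,
  824020235607712861886461959394906719981667704025411586,
  777608876696689070668821328163986032359431737879314499,
  53531705193097328918742535613783094137631285249, 16254737545520655551076321059720487011889281,
  752944667790894220042329788174503455042788375579603073,
  202371532137972708706264751028592254568085767856129,
  753324385613336208993767335077813290156633042605846529,
  16897866006219444096905607598193317528260615,
  3290876035632121556475228376254839103302023504147906039872,
  183644528028077342115977091629297067937482174136455,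
  60802139958932976168580866721781590273655332868,
  1091569383490145709238619718251415678831391847607439360,
  13086109373060225028444231519031922610708548,
  803437084661089657014727491535966012652877337281957888,
  658274349265137052767504506277918392115433562285285440,
  17588554078225358932979288017084732683124745,
  2794395400382784454699334418745787619493610497132256833538,
  47823422467530172206957207917645836979342151936,
  277538913801941757032419723066634748017455672094784,
  825165954387938041006885522170634575321410655199440897,
  1090101943186685520355300335989075556532894999167373312,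
  3381414139281051397333965603311709145386665442542725894144,
  64948298128723310323695537553619544758492356673,
  3478009236965103743265241975100530474236330484531999285248,
  207760886671043476177962614354031345369264648622080,
  225392950984575408300935213127702373301124237664324,
  67895846538624963073898278705218091454111690754,
  3772080395810304060331281370164340225346195732513719324672,
  4461871748613833938791620974919361252551373040345313189888,
  63479922715545414497108682175936604148297396228,
  3277226551642153625009945346503145049027652337936906866692,
  283302161937214295438477719156969596859055533486081,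
  3772199016950767415443455458316123873364168077889113448449,
  3379880515095501118605986843824308948328405813048086638722,
  848713945699964577739798219517842106048271160565043264,
  66421557699824109210215307827517098614667370498, 19085975960174233686792596513903945903276102,
  3280172909987034185294266673129712791798823224470791786560,
  67985735184483530240643609578803357479758209089,
  225484316789461310479734745636657428132539067305991,
  3583751446735806921671557666509913208947872518304539357186,
  3579226170164556382863103314464716231000413842473965068352,
  851379915938354587018282551586058331822262050737119235,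
  58062295407632255249735698854795159094174687232,
  3090238495419420114611816752824861106506543481985459302401,
  1040275982551868490610776179201140928062726366797516803,
  283587657150077763894465096852268063033614779318272,
  1094545100711571489283868527808612802543437957399334916,
  1142464997745035561866212868291538629547801977331126336,
  16298643846131946455947065134659529662875066301779070341881920,
  13492086727724306212203517391553297731426816125754414849855552,
  60713612530377603879339029454988167663568826368,
  16649954773920218270920744063286271717330652988810676234633217,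
  993911313174057178102074820097718071809547747333529604,
  731232874926556706356847631781610896127529217973825537,
  3582267952875680974547942658487396799258312334115286040578,
  897393924921838900494839789150856317876772780110012416,
  945290252253410888301661418243800815979249429798739969,
  1021615713716070345566217232875312460857673928767987716,
  4564502199253222381451535815112947139969267535248967872513,
  920988228859389770055081220833079612934321826183815177,
  225667227534083291950496379679646452018854333534340,
  898499095684322303192423448103806417051637673086959616,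
  63616548302913595959623833735306102700973002755,
  3379929551766733668858534107302350250525804315393479413888,
  3675677608267804308575157978555552208312284935272932839424,
  1331407849536864976556108911784197380867152360864493632,
  898528137254184563967499822213470136689970076344401984,
  3974418837761461256965088707498664026970968694122302681090,
  72355685080038190936900750163581799475885912193,
  19932399238581505449437849010979221804413633063773010307588097,
  1115514736328229146166657995371618962807765314187042817,
  3297176300832520239664697101934482620249311205733347889216,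
  801963805265672451666914614582470355277972122559598594,
  925057317785584131710461449020722150613100853413552256,
  4271915265835352722567983383120080300954716153598427279425,
  277831613886686925690371927468677410721448342097928,
  1164919419119249155103446227006227176715912242748723200,
  4869782713205772256108127336489770838943173150767994638336,
  731244753999721997813704891525358116923759586932187140,
  306957389952690007635245924271347416992499674423305,
  266593533148264836855186834257672096262769445974080,
  4380530881172734929839209489586587123230484648152005091392,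
  284871022547576145057744945414024241380287646273536,
  876822286043595128285769169946281233672580188515090432,
  13078190452176836981296772651746419908425962650372140740395011,
  3194378975574955261584489941574490669791920124944953913472,
  17479125303447510552884404599608075153180784203263640105914368,
  12306007302159658490318463557255735408115156475714108457754688,
  1213195664019965472561999870284622885809214200459051008,
  4264131962595013284801905552498656576987820533407384092674,
  992028709194534384347423791218613231957291714156466310,
  13480121147341241425301731087821220795746729313798550523748352,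
  3870351350746603160502443494989710969517889938021094547458,
  277838729577543978555099133880670789976032299761675,
  14684932265515785186235783284916298996509156230297562357710851,
  283503451975947633911343548118349653792040029560841,
  55187678548956266442643329101251922623910721596582031443645435904,
  3778498545268847081640254894345570294634653823428416794624,
  244034434889609969382211617226927479435883484295168,
  4667250475871994041282220899103623348720660128419111792704,
  1261852514803100221952849946639368275920850606801555456,
  15859535024279642024190613228538648556459564656831919767167104,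
  1093054192174327790976046194489739259102693651242295361,
  71465521435871725778060511819147578816221292192909860677014011906,
  4668952132370492902905796216573463922391787615366989230082,
  4560071633741239415710573082139541730822034019020871856132,
  16279319195626257333621125685318550238888839419012435614642177,
  17472163200940091765737744397121461082022493541153649052622849,
  1402167822959838097643485800125582552254607661145026561,
  3680251921695807988141230688773763255314067045459813478400,
  18256598507573789679249011677485435978329846550527284250943552,
  3191408654724755782219002794776168878926956228946542219268,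
  325059243174455727966074829185387432209894586503244,
  1259653582625430854317140799657197473693971939770793991,
  69895147215006181768334383955883943986774089037322871610299133954,
  1283137464893217424469581063536295202050164462987784192,
  1258098657635883941943071052499638965699530995922149383,
  4959982595871736044077051017663393529611022425646587727876,
  1114070598563335336135403501785268482979848431952490500,
  4071204439439386642307887858287784549161286964050896642052,
  3683389882448624070050981851845296595729756737795424538688,
  342597305698093937049785098240637326710591440834564,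
  19475144019530916642017387186881963153403123081199507946618881,
  1237574048020749024529355326524309705513857196665880771,
  1165311192923836768045181512344078146849259759268532224,
  4958425786886662425380804283589033977755612100543103119361,
  78088381611360978147192855689828182492431024134,
  12707743322920709892683537993423005349225865721116150553124864,
  65062306844879295425893713686171126721712266564531957128927391746,
  296283097517239733529923972164245998590921346932738,
  1163434353555598635939494646239025734966244581587841092,
  5059762405369571037164974454512245139067190672596050137091,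
  21929893869064865302867862448478987227661559559458464809111556,
  3392144613375614859509543755337202786906382257235283681280,
  65111713422336883460634701492676845331573957060599470395236814848,
  342243281014002131377893600302339968954794202435600,
  17064934621484322570187320512922933764106190661385845417201666,
  15884743068130541397598217405933760476020591499403225081339906,
  15507333786967953166647597095367665186412481865041167612661825,
  15884057993599161951139183215361987275246380187773427373592642,
  73444108435773665111139305209110421045627728343826739478000840706,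
  15953302297226521378269504693158711614904079323349224104931392,
  3976238728914528015509757592503970837102278799476578865153,
  301585277740258398576112075380126082901038063747080,
  74987559876146699799734816161534980695401317303088934670955716609,
  4383789001480669544988617236802729845953834800957478674625,
  15865516306502609727113827358451894419568936524590553022083136,
  4370018574573538003710274388358755406655915870633725280256,
  19124124480718880424345553285008383737603243601765212029730817,
  296290364788661038079456331744733708261454419079232,
  4866788073609229425711615461401059890107878584260359389186,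
  103112213951539642207511506574844957838080327467342366668472197120,
  313156649385278119233287927466450638504261526887790703977783781498945,
  73186972843368916557883343386763508523196614810482050065244905539,
  280913015304838972667283241000719833102113063995558442784726368653312,
  5257310336889934404532312172309078058434791901863036350532,
  1215510762607321526954866966989228049676812185533706246,
  4181499940669810161447980182162668121921995432584696312001,
  300301995101922080829541331405106220576237643099803933139435795271745,
  1187344704502953435223640891627808297041647140913299459,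
  65010878651578579789917385034530834021818906455866219555449479233,
  20328843841839876119900475550095944696327624613085322101923840,
  4189306072194528423223153400694845849461891880738500390976,
  852479788827093514993343746491452355331161558118854916,
  20341986452890976953291449881717807743987400497888537994338305,
  1212821609586777415650696028549562048784730834388922369]

theorem cert3_ok : evs (fun n _ _ v => Nat.beq (2 * v + n) (n * n))
    (fun n => decide (n ∈ [7, 11, 13, 15, 19, 23, 31, 39])) cert3 5 = true := by decide +kernel

theorem cert4_ok :
    evs (fun n t t' v => Nat.beq (t * t + t' * t' + n * n) (3 * v + n + 2 * t * t'))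
    (fun n => decide (n ∈ [7, 13, 16, 20, 22, 25, 31])) cert4 5 = true := by decide +kernel

theorem cert3_len : cert3.length = 587 := by decide +kernel

theorem cert4_len : cert4.length = 587 := by decide +kernel

theorem exists_shape3 (n : ℕ) (hn : 5 ≤ n) (hE : n ∉ [7, 11, 13, 15, 19, 23, 31, 39]) :
    ∃ (L L' : ℕ) (e : ℤ) (v : ℕ), Shape n L L' e v ∧ 2 * v + n = n * n := by
  by_cases h : n < 592
  · obtain ⟨L, L', t, t', v, h1, h2⟩ := evs_sound _ _ _ _ cert3_ok n hn
      (by rw [cert3_len]; omega) (by simpa using hE)
    exact ⟨L, L', _, v, h1, by simpa using h2⟩
  obtain ⟨q, hq⟩ : ∃ q, n = 4 * q ∨ n = 4 * q + 1 ∨ n = 4 * q + 2 ∨ n = 4 * q + 3 :=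
    ⟨n / 4, by omega⟩
  obtain ⟨q, rfl⟩ : ∃ r, q = r + 148 := ⟨q - 148, by omega⟩
  rcases hq with rfl | rfl | rfl | rfl
  · have := shape_of_win (shape_zero.mono (by omega)) (4 * (q + 148))
      ((q + 148) * (4 * q + 591)) (by omega) (by nlinarith) (by nlinarith)
    exact ⟨_, _, _, _, by simpa using this, by ring⟩
  · have := shape_of_win (shape_zero.mono (by omega)) (4 * (q + 148) + 1)
      ((q + 148) * (4 * q + 593)) (by omega) (by nlinarith) (by nlinarith)
    exact ⟨_, _, _, _, by simpa using this, by ring⟩
  · have := shape_of_win shape_two (4 * (q + 148))
      ((q + 148) * (4 * q + 595)) (by omega) (by nlinarith) (by nlinarith)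
    exact ⟨_, _, _, _, by rw [add_comm]; exact this, by ring⟩
  · have := shape_of_win shape_two (4 * (q + 148) + 1)
      ((q + 149) * (4 * q + 593)) (by omega) (by nlinarith) (by nlinarith)
    exact ⟨_, _, _, _, by rw [show 4 * (q + 148) + 3 = 2 + (4 * (q + 148) + 1) by ring]; exact this,
      by ring⟩

theorem exists_shape4 (n : ℕ) (hn : 5 ≤ n) (hE : n ∉ [7, 13, 16, 20, 22, 25, 31]) :
    ∃ (L L' : ℕ) (e : ℤ) (v : ℕ), Shape n L L' e v ∧ e ^ 2 + n * n = 3 * v + n := by
  by_cases h : n < 592
  · obtain ⟨L, L', t, t', v, h1, h2⟩ := evs_sound _ _ _ _ cert4_ok n hn
      (by rw [cert4_len]; omega) (by simpa using hE)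
    simp only [Nat.beq_eq] at h2
    refine ⟨L, L', _, v, h1, ?_⟩
    have : ((t * t + t' * t' + n * n : ℕ) : ℤ) = (3 * v + n + 2 * t * t' : ℕ) := by rw [h2]
    push_cast at this
    linear_combination this
  by_cases h3 : n % 3 = 2
  · obtain ⟨m, rfl⟩ : ∃ m, n = 2 + m := ⟨n - 2, by omega⟩
    obtain ⟨u, hu⟩ : ∃ u, m * (m + 3) = 6 * u := by
      obtain ⟨q, hq⟩ : ∃ q, m = 6 * q ∨ m = 6 * q + 3 := ⟨m / 6, by omega⟩
      rcases hq with rfl | rfl
      · exact ⟨q * (6 * q + 3), by ring⟩
      · exact ⟨(6 * q + 3) * (q + 1), by ring⟩
    have hm : 590 ≤ m := by omega
    refine ⟨_, _, _, _, shape_of_win shape_two m u hm (by nlinarith) (by nlinarith), ?_⟩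
    have : ((m * (m + 3) : ℕ) : ℤ) = (6 * u : ℕ) := by rw [hu]
    push_cast at this ⊢
    linear_combination this
  · obtain ⟨u, hu⟩ : ∃ u, n * n = 6 * u + n := by
      obtain ⟨q, hq⟩ : ∃ q, n = 6 * q + 6 ∨ n = 6 * q + 1 ∨ n = 6 * q + 3 ∨ n = 6 * q + 4 :=
        ⟨(n - 1) / 6, by omega⟩
      rcases hq with rfl | rfl | rfl | rfl
      · exact ⟨(q + 1) * (6 * q + 5), by ring⟩
      · exact ⟨q * (6 * q + 1), by ring⟩
      · exact ⟨(2 * q + 1) * (3 * q + 1), by ring⟩
      · exact ⟨(2 * q + 1) * (3 * q + 2), by ring⟩
    have hm : 590 ≤ n := by omega
    have := shape_of_win (shape_zero.mono (by omega)) n u hm (by nlinarith) (by nlinarith)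
    refine ⟨_, _, _, _, by simpa using this, ?_⟩
    have : ((n * n : ℕ) : ℤ) = (6 * u + n : ℕ) := by rw [hu]
    push_cast at this ⊢
    linear_combination this

end Pool.Agent.P.MP_eccc2e_al
end
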