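import Pool.Agent.K.MP_eccc2e_al.C0

/-! Nonvanishing 3-cycles and double transpositions in alternating groups. -/

namespace Pool.Agent.P.MP_eccc2e_al

open Equiv Finset

theorem search3 : ∀ n ∈ [7, 11, 13, 15, 19, 23, 31, 39],
    search n (n * n / 2) (fun _ _ p => 2 * p + n != n * n) = true := by decide +kernel

theorem search4 : ∀ n ∈ [7, 13, 16, 20, 22, 25, 31], search n (n * (n * n))
    (fun t t' p => t * t + t' * t' + n * n != 3 * p + n + 2 * t * t') = true := by decide +kernel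

theorem Shape.tab {n L L' e v} (h : Shape n L L' e v) : ∃ col row : Fin n → ℕ, Tab col row ∧
    ∑ k, ((col k : ℂ) - row k) = e ∧ ∑ k, ((col k : ℂ) - row k) ^ 2 = v := by
  obtain ⟨D, h1, h2, -, h4, h5⟩ := h
  obtain ⟨col, row, ht, hs⟩ := exists_tab D h1 n h2
  rw [← hs] at h4 h5
  refine ⟨col, row, ht, ?_, ?_⟩
  · rw [← h4]; push_cast; rfl
  · have := congrArg (Int.cast : ℤ → ℂ) h5
    push_cast at this
    exact this

theorem three (n : ℕ) (hn : 5 ≤ n) (x : alternatingGroup (Fin n)) (hx : x.1.IsThreeCycle) :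
    Nonvanishing x ↔ n ∈ [7, 11, 13, 15, 19, 23, 31, 39] := by
  have hy : ∀ t : I3 n, y3 t ∈ alternatingGroup (Fin n) := fun t =>
    (y3_three t).mem_alternatingGroup
  have hc : ∀ t : I3 n, IsConj x ⟨y3 t, hy t⟩ := fun t =>
    alternatingGroup.isThreeCycle_isConj (by simpa using hn) hx (y3_three t)
  constructor
  · intro h
    by_contra hE
    obtain ⟨L, L', e, v, h1, h2⟩ := exists_shape3 n hn hE
    obtain ⟨col, row, ht, -, h4⟩ := h1.tab
    have : Nonempty (I3 n) := ⟨⟨(⟨0, by omega⟩, ⟨1, by omega⟩, ⟨2, by omega⟩), by simp⟩⟩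
    refine vanishing_of y3 hy x hc y3_inv _ (fun V _ _ ρ v a => K3_eig ρ v a) col row ht ?_ h
    have : ((2 * v + n : ℕ) : ℂ) = (n * n : ℕ) := by rw [h2]
    push_cast at this
    rw [h4]
    linear_combination 3 / 2 * this
  · intro hE
    refine nonvanishing_of y3 hy x hc y3_inv _ (fun V _ _ ρ v a => K3_eig ρ v a) (by omega)
      fun b hb h0 => ?_
    have h1 : 2 * ∑ k ∈ range n, b k ^ 2 + n = n * n := by
      rw [← Fin.sum_univ_eq_sum_range (fun k => b k ^ 2)]
      have : ((2 * ∑ k : Fin n, b k ^ 2 + n : ℤ) : ℂ) = (n * n : ℤ) := by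
        push_cast; linear_combination 2 / 3 * h0
      exact_mod_cast this
    obtain ⟨t, t', p, e1, -, e3⟩ := hb.search_sound _ _ (by push_cast; omega) (search3 n hE)
    rw [e3] at h1
    simp only [bne_iff_ne] at e1
    exact e1 (by exact_mod_cast h1)

theorem four (n : ℕ) (hn : 5 ≤ n) (x : alternatingGroup (Fin n)) (hx : x.1.cycleType = {2, 2}) :
    Nonvanishing x ↔ n ∈ [7, 13, 16, 20, 22, 25, 31] := by
  have hc := y4_conj x hx
  constructor
  · intro h
    by_contra hE
    obtain ⟨L, L', e, v, h1, h2⟩ := exists_shape4 n hn hE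
    obtain ⟨col, row, ht, h3, h4⟩ := h1.tab
    have : Nonempty (I4 n) :=
      ⟨⟨((⟨0, by omega⟩, ⟨1, by omega⟩), ⟨2, by omega⟩, ⟨3, by omega⟩), by simp⟩⟩
    refine vanishing_of y4 y4_mem x hc y4_inv _ (fun V _ _ ρ v a => K4_eig ρ v a) col row ht ?_ h
    have := congrArg (Int.cast : ℤ → ℂ) h2
    push_cast at this
    rw [h3, h4]
    linear_combination 4 * this
  · intro hE
    refine nonvanishing_of y4 y4_mem x hc y4_inv _ (fun V _ _ ρ v a => K4_eig ρ v a) (by omega)
      fun b hb h0 => ?_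
    have h1 : (∑ k ∈ range n, b k) ^ 2 + n * n = 3 * ∑ k ∈ range n, b k ^ 2 + n := by
      rw [← Fin.sum_univ_eq_sum_range (fun k => b k ^ 2), ← Fin.sum_univ_eq_sum_range b]
      have : (((∑ k : Fin n, b k) ^ 2 + n * n : ℤ) : ℂ) = (3 * ∑ k : Fin n, b k ^ 2 + n : ℤ) := by
        push_cast; linear_combination 1 / 4 * h0
      exact_mod_cast this
    have hB : ∑ k ∈ range n, b k ^ 2 ≤ (n * (n * n) : ℕ) := by
      have := sum_le_card_nsmul (range n) (fun k => b k ^ 2) (n * n) fun k hk => by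
        have hk := mem_range.mp hk
        have := hb.abs_le k hk
        have : (k : ℤ) ≤ n := by omega
        nlinarith
      simpa using this
    obtain ⟨t, t', p, e1, e2, e3⟩ := hb.search_sound _ _ hB (search4 n hE)
    rw [e2, e3] at h1
    simp only [bne_iff_ne] at e1
    refine e1 ?_
    have : ((t * t + t' * t' + n * n : ℕ) : ℤ) = (3 * p + n + 2 * t * t' : ℕ) := by
      push_cast; linear_combination h1
    exact_mod_cast this

end Pool.Agent.P.MP_eccc2e_al
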