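import Pool.Agent.P.MP_eccc2e_al.Crit

/-! The criterion holds for a set of positive lower density. -/

namespace Pool.Agent.P.MP_eccc2e_al

open Finset

theorem prog_count (x a p σ : ℤ) (M D U q : ℕ) (hM : 0 < M) (hq : 0 < q) (hσ : σ ≠ 0)
    (h : q * a = p * M + σ) : #((range U).filter fun u : ℕ => (x + a * u) % M < D) ≤
      q * ((σ.natAbs * (U / q + 1) / M + 2) * (D / σ.natAbs + 1)) := by
  have hM' : (0 : ℤ) < M := by exact_mod_cast hM
  let z : ℕ → ℤ := fun u => (x + a * (u % q : ℕ)) % M + σ * (u / q : ℕ)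
  have hz : ∀ u : ℕ, (x + a * u) % M = z u % M := by
    intro u
    have h1 : (u : ℤ) = q * (u / q : ℕ) + (u % q : ℕ) := by exact_mod_cast (Nat.div_add_mod u q).symm
    simp only [z]
    rw [Int.emod_add_emod, Int.emod_eq_emod_iff_emod_sub_eq_zero]
    apply Int.emod_eq_zero_of_dvd
    exact ⟨p * (u / q : ℕ), by linear_combination a * h1 + ((u / q : ℕ) : ℤ) * h⟩
  have h0 : ∀ u : ℕ, 0 ≤ (x + a * (u % q : ℕ)) % M ∧ (x + a * (u % q : ℕ)) % M < M := fun u =>
    ⟨Int.emod_nonneg _ hM'.ne', Int.emod_lt_of_pos _ hM'⟩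
  have hs : ∀ u, (0 < σ → 0 ≤ z u / M) ∧ (σ < 0 → z u / M ≤ 0) := by
    intro u
    have h1 : (0 : ℤ) ≤ (u / q : ℕ) := Int.natCast_nonneg _
    have := h0 u
    constructor
    · intro h2
      exact Int.ediv_nonneg (by simp only [z]; nlinarith) hM'.le
    · intro h2
      rw [← Int.lt_add_one_iff, Int.ediv_lt_iff_lt_mul hM']
      simp only [z]; nlinarith
  refine (card_le_card_of_injOn (t := range q ×ˢ range (σ.natAbs * (U / q + 1) / M + 2) ×ˢ
    range (D / σ.natAbs + 1)) (fun u => (u % q, (z u / M).natAbs, (z u % M).toNat / σ.natAbs))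
    (fun u hu => ?_) ?_).trans (by simp)
  · simp only [coe_filter, mem_range, Set.mem_setOf_eq, hz] at hu
    simp only [coe_product, Set.mem_prod, mem_coe, mem_range]
    refine ⟨Nat.mod_lt _ hq, ?_, Nat.lt_succ_of_le (Nat.div_le_div_right (by omega))⟩
    have h1 : u / q ≤ U / q := Nat.div_le_div_right hu.1.le
    have h2 : (z u / M).natAbs * M ≤ σ.natAbs * (U / q + 1) + M := by
      have h3 := Int.mul_ediv_add_emod (z u) M
      have h4 := Int.emod_nonneg (z u) hM'.ne'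
      have h5 := Int.emod_lt_of_pos (z u) hM'
      have h6 : ((u / q : ℕ) : ℤ) ≤ (U / q : ℕ) := by exact_mod_cast h1
      have h7 : (0 : ℤ) ≤ (u / q : ℕ) := Int.natCast_nonneg _
      have := h0 u
      zify
      rcases lt_or_gt_of_ne hσ with h8 | h8
      · rw [abs_of_nonpos ((hs u).2 h8), abs_of_neg h8]
        simp only [z] at *
        push_cast at *
        nlinarith
      · rw [abs_of_nonneg ((hs u).1 h8), abs_of_pos h8]
        simp only [z] at *
        push_cast at *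
        nlinarith
    have := (Nat.le_div_iff_mul_le hM).mpr h2
    rw [Nat.add_div_right _ hM] at this
    omega
  · intro u _ v _ huv
    simp only [Prod.mk.injEq] at huv
    obtain ⟨h1, h2, h3⟩ := huv
    have h4 : z u / M = z v / M := by
      have := hs u
      have := hs v
      omega
    have h5 : z u - z v = σ * ((u / q : ℕ) - (v / q : ℕ)) := by simp only [z, h1]; ring
    have h6 : z u - z v = z u % M - z v % M := by
      linear_combination Int.mul_ediv_add_emod (z v) M - Int.mul_ediv_add_emod (z u) M + M * h4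
    have h7 : 0 < σ.natAbs := Int.natAbs_pos.mpr hσ
    have h8 := Nat.div_add_mod (z u % M).toNat σ.natAbs
    have h9 := Nat.div_add_mod (z v % M).toNat σ.natAbs
    have := Nat.mod_lt (z u % M).toNat h7
    have := Nat.mod_lt (z v % M).toNat h7
    have := Int.emod_nonneg (z u) hM'.ne'
    have := Int.emod_nonneg (z v) hM'.ne'
    rw [h3] at h8
    have h10 : (σ * ((u / q : ℕ) - (v / q : ℕ))).natAbs < σ.natAbs * 1 := by
      rw [← h5, h6]; omega
    rw [Int.natAbs_mul, Nat.mul_lt_mul_left h7] at h10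
    rw [← Nat.div_add_mod u q, ← Nat.div_add_mod v q, h1, show u / q = v / q by omega]

theorem prog_good (x a : ℤ) (P Λ : ℕ) (hΛ : 0 < Λ) (hP : 2 ^ 20 * Λ ^ 2 ≤ P)
    (h : ∀ q : ℕ, 0 < q → q < 128 * Λ → ∀ p : ℤ, 2 ^ 18 * Λ ^ 2 ≤ (q * a - p * (128 * P * Λ)).natAbs) :
    (#((range (2 * P)).filter fun u : ℕ => (x + a * u) % (128 * P * Λ : ℕ) < (16 * P : ℕ)) : ℝ) ≤
      73 / 256 * P / Λ := by
  have hΛ' : (1 : ℝ) ≤ Λ := by exact_mod_cast hΛ
  have hP' : (2 : ℝ) ^ 20 * Λ ^ 2 ≤ P := by exact_mod_cast hP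
  have hP0 : (0 : ℝ) < P := lt_of_lt_of_le (by positivity) hP'
  obtain ⟨p, k, h1, h2, h3⟩ := Real.exists_int_int_abs_mul_sub_le ((a : ℝ) / (128 * P * Λ))
    (n := 128 * Λ - 1) (by omega)
  obtain ⟨q, rfl⟩ := Int.eq_ofNat_of_zero_le h1.le
  have h4 := h q (by omega) (by omega) p
  set σ : ℤ := q * a - p * (128 * P * Λ) with hσ
  have h5 : (σ.natAbs : ℝ) ≤ P := by
    rw [Nat.cast_sub (by omega)] at h3
    have : ((q : ℤ) : ℝ) * (a / (128 * P * Λ)) - p = σ / (128 * P * Λ) := by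
      rw [hσ]; push_cast; field_simp
    rw [this, abs_div, abs_of_pos (a := (128 * P * Λ : ℝ)) (by positivity),
      div_le_div_iff₀ (by positivity) (by push_cast; linarith)] at h3
    rw [Nat.cast_natAbs, Int.cast_abs]
    push_cast at h3
    nlinarith
  have h6 : (2 : ℝ) ^ 18 * Λ ^ 2 ≤ σ.natAbs := by exact_mod_cast h4
  have h7 : (0 : ℝ) < σ.natAbs := lt_of_lt_of_le (by positivity) h6
  have h8 := prog_count x a p σ (128 * P * Λ) (16 * P) (2 * P) q (by exact_mod_cast (by positivity :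
    (0 : ℝ) < 128 * P * Λ)) (by omega) (by rintro h; simp [h] at h7) (by rw [hσ]; push_cast; ring)
  have hq : (1 : ℝ) ≤ q := by exact_mod_cast h1
  have hq' : (q : ℝ) ≤ 128 * Λ := by exact_mod_cast (by omega : q ≤ 128 * Λ)
  refine (Nat.cast_le.mpr h8).trans ?_
  set t := σ.natAbs
  have h9 : ((t * (2 * P / q + 1) / (128 * P * Λ) : ℕ) : ℝ) ≤ t * (2 * P / q + 1) / (128 * P * Λ) := by
    refine Nat.cast_div_le.trans ?_
    have : ((2 * P / q : ℕ) : ℝ) ≤ 2 * P / q := Nat.cast_div_le.trans (by push_cast; rfl)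
    push_cast
    gcongr
  have h10 : ((16 * P / t : ℕ) : ℝ) ≤ 16 * P / t := Nat.cast_div_le.trans (by push_cast; rfl)
  calc ((q * ((t * (2 * P / q + 1) / (128 * P * Λ) + 2) * (16 * P / t + 1)) : ℕ) : ℝ)
      ≤ q * ((t * (2 * P / q + 1) / (128 * P * Λ) + 2) * (16 * P / t + 1)) := by
        push_cast at h9 h10 ⊢; gcongr
    _ = P / (4 * Λ) + q / (8 * Λ) + t / (64 * Λ) + q * t / (128 * P * Λ) + 32 * q * P / t + 2 * q := by
        field_simp; ring
    _ ≤ P / (4 * Λ) + 128 * Λ / (8 * Λ) + P / (64 * Λ) + 128 * Λ * P / (128 * P * Λ) +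
          32 * (128 * Λ) * P / (2 ^ 18 * Λ ^ 2) + 2 * (128 * Λ) := by gcongr
    _ = (72 / 256 * P + (17 + 256 * Λ) * Λ) / Λ := by field_simp; ring
    _ ≤ _ := by
        refine div_le_div_of_nonneg_right ?_ (by positivity)
        nlinarith

open Classical in
theorem bad_count (P Λ : ℕ) (hΛ : 0 < Λ) (hP : 2 ^ 20 * Λ ^ 2 ≤ P) :
    #((range (52 * P)).filter fun i : ℕ => ¬∀ q : ℕ, 0 < q → q < 128 * Λ → ∀ p : ℤ,
      2 ^ 18 * Λ ^ 2 ≤ (q * (-8 * (i : ℤ)) - p * (128 * P * Λ)).natAbs) ≤ 2 ^ 35 * Λ ^ 3 := by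
  refine le_trans (card_le_card (t := (range (128 * Λ) ×ˢ range 512 ×ˢ range (2 ^ 19 * Λ ^ 2)).image
    fun v => (v.2.1 * (128 * P * Λ) + v.2.2 - 2 ^ 18 * Λ ^ 2) / (8 * v.1)) fun i hi => ?_)
    (card_image_le.trans (le_of_eq (by simp; ring)))
  simp only [mem_filter, mem_range, not_forall, not_le] at hi
  obtain ⟨h1, q, h2, h3, p, h4⟩ := hi
  have h5 : q * i ≤ 128 * Λ * (52 * P) := Nat.mul_le_mul h3.le h1.le
  have h6 : Λ ^ 2 ≤ Λ ^ 2 * Λ := Nat.le_mul_of_pos_right _ hΛ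
  have h7 : 2 ^ 20 * Λ ^ 2 * Λ ≤ P * Λ := Nat.mul_le_mul_right _ hP
  have h8 : (0 : ℤ) ≤ q * i := by positivity
  obtain ⟨h9, h10⟩ : -(2 ^ 18 * (Λ : ℤ) ^ 2) < q * (-8 * (i : ℤ)) - p * (128 * P * Λ) ∧
      q * (-8 * (i : ℤ)) - p * (128 * P * Λ) < 2 ^ 18 * (Λ : ℤ) ^ 2 := by
    zify at h4; exact abs_lt.mp h4
  zify at h5 h6 h7
  have hM : (0 : ℤ) < P * Λ := by nlinarith
  have h11 : p ≤ 0 := by nlinarith
  have h12 : -512 < p := by nlinarith
  obtain ⟨p', hp'⟩ := Int.eq_ofNat_of_zero_le (neg_nonneg.mpr h11)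
  obtain ⟨y, hy⟩ := Int.eq_ofNat_of_zero_le
    (a := 8 * q * i + p * (128 * P * Λ) + 2 ^ 18 * (Λ : ℤ) ^ 2) (by linarith)
  refine mem_image.mpr ⟨(q, p', y), ?_, ?_⟩
  · simp only [mem_product, mem_range]
    refine ⟨h3, by omega, ?_⟩
    zify; linarith
  · have : p' * (128 * P * Λ) + y = 8 * q * i + 2 ^ 18 * Λ ^ 2 := by
      zify; rw [← hp', ← hy]; ring
    simp only [this, Nat.add_sub_cancel]
    exact Nat.mul_div_cancel_left _ (by omega)

/-- bad residues -/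
def badRes (s L : ℕ) : Finset ℕ := (range s).biUnion fun e =>
  (range (2 ^ (L - (e + 1))) ×ˢ range 2).image fun v => 2 ^ s * 2 ^ min (e + 1) L * v.1 + 2 * e + v.2

theorem card_badRes (s L : ℕ) : #(badRes s L) ≤ 2 * (2 ^ L + s) := by
  have h1 : ∀ t, ∑ e ∈ range t, 2 ^ (L - (e + 1)) + 2 ^ (L - t) ≤ 2 ^ L + t := by
    intro t
    induction t with
    | zero => simp
    | succ t ih =>
      rw [sum_range_succ]
      rcases le_or_gt L t with h | h
      · rw [Nat.sub_eq_zero_of_le h] at ih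
        rw [Nat.sub_eq_zero_of_le (h.trans t.le_succ)]; omega
      · rw [show L - t = L - (t + 1) + 1 by omega, pow_succ] at ih; omega
  refine card_biUnion_le.trans ((sum_le_sum fun e _ => card_image_le).trans ?_)
  simp only [card_product, card_range, ← sum_mul]
  have := (Nat.le_add_right _ _).trans (h1 s)
  omega

theorem mem_badRes (s L w : ℕ) (h1 : 2 ^ s ≤ w) (h2 : w ≤ 2 ^ s * 2 ^ s)
    (h : w % 2 ^ s < 2 * padicValNat 2 (w / 2 ^ s)) :
    ∃ ρ ∈ badRes s L, ∃ u, w = ρ + 2 ^ s * 2 ^ L * u := by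
  have h3 : 0 < w / 2 ^ s := Nat.div_pos h1 (by positivity)
  have h4 : padicValNat 2 (w / 2 ^ s) ≤ s := by
    rw [← Nat.pow_le_pow_iff_right (a := 2) (by norm_num)]
    exact (Nat.le_of_dvd h3 pow_padicValNat_dvd).trans (Nat.div_le_of_le_mul h2)
  set e := w % 2 ^ s / 2 with he
  obtain ⟨q, hq⟩ : 2 ^ min (e + 1) L ∣ w / 2 ^ s :=
    (pow_dvd_pow 2 (by omega)).trans pow_padicValNat_dvd
  refine ⟨_, mem_biUnion.mpr ⟨e, mem_range.mpr (by omega), mem_image_of_mem _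
    (a := (q % 2 ^ (L - (e + 1)), w % 2 ^ s % 2)) (by simp [Nat.mod_lt, -Order.lt_two_iff])⟩,
    q / 2 ^ (L - (e + 1)), ?_⟩
  have h5 : 2 ^ L = 2 ^ min (e + 1) L * 2 ^ (L - (e + 1)) := by
    rw [← pow_add]; congr 1; omega
  have h6 := Nat.div_add_mod w (2 ^ s)
  have h7 := Nat.div_add_mod q (2 ^ (L - (e + 1)))
  have h8 := Nat.div_add_mod (w % 2 ^ s) 2
  rw [hq] at h6
  simp only [h5]
  zify at h6 h7 h8 ⊢
  rw [he]; push_cast
  linear_combination -h6 - h8 - 2 ^ s * 2 ^ min (e + 1) L * h7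

theorem crit_of {s J δ : ℕ} (h1 : 2 ^ s + δ < 6 * J + 3)
    (h : ∀ i w : ℕ, i ≤ 2 * J → (w : ℤ) = i * (8 * J - 4 * i + 1) + 2 ^ s + δ → 2 ^ s ≤ w →
      w ≤ 4 * J ^ 2 + J + 2 ^ s + δ → 2 * padicValNat 2 (w / 2 ^ s) ≤ w % 2 ^ s) :
    Crit (2 * (4 * J ^ 2 + J + 2 ^ s + δ)) s := by
  intro w k hk
  have key : ∀ i : ℕ, i ≤ 2 * J → (w : ℤ) = i * (8 * J - 4 * i + 1) + 2 ^ s + δ →
      2 ^ s ≤ w ∧ 2 * padicValNat 2 (w / 2 ^ s) ≤ w % 2 ^ s := by
    intro i hi hw
    have h2 : (0 : ℤ) ≤ i * (8 * J - 4 * i + 1) := mul_nonneg (by omega) (by omega)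
    have h3 : 2 ^ s ≤ w := by zify; omega
    exact ⟨h3, h i w hi hw h3 (by omega)⟩
  have h2 := Nat.div_add_mod k 4
  set j := k / 4
  have h3 : k % 4 = 0 ∨ k % 4 = 3 := by
    have : k % 4 < 4 := Nat.mod_lt _ (by norm_num)
    have h4 : k * (k + 1) % 4 = 0 := by omega
    rw [Nat.mul_mod, Nat.add_mod] at h4
    interval_cases k % 4 <;> simp at h4 ⊢
  rcases h3 with h3 | h3 <;> rw [h3] at h2 <;> rw [← h2] at hk
  · have h4 : j ≤ J := by by_contra h4; nlinarith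
    refine key (J - j) (by omega) ?_
    zify at hk
    push_cast [h4]
    linarith
  · have h4 : j < J := by by_contra h4; nlinarith
    refine key (J + j + 1) (by omega) ?_
    zify at hk
    push_cast
    linarith

open Classical in
theorem many (s L P : ℕ) (hs : 2 ^ s = 128 * P) (h1 : 32 * s ≤ 2 ^ L) (h2 : 2 ^ 39 * (2 ^ L) ^ 4 ≤ P) :
    P ^ 2 ≤ #((range (2 ^ 13 * P ^ 2)).filter fun n => 256 * P ≤ n ∧ Crit n s) := by
  set Λ := 2 ^ L with hΛ
  have hΛ0 : 0 < Λ := by positivity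
  have hP : 2 ^ 20 * Λ ^ 2 ≤ P :=
    le_trans (Nat.mul_le_mul (by norm_num) (Nat.pow_le_pow_right hΛ0 (by norm_num))) h2
  have hP1 : 2 ^ 20 ≤ P := le_trans (Nat.le_mul_of_pos_right _ (by positivity)) hP
  let φ : ℕ × ℕ → ℕ := fun v => 2 * (4 * (24 * P + v.1) ^ 2 + (24 * P + v.1) + 2 ^ s + v.2)
  let T := range (2 * P) ×ˢ range (16 * P)
  let c : ℕ → ℕ → ℕ := fun i ρ => #((range (2 * P)).filter fun u : ℕ =>
    ((ρ - (i * (8 * (24 * P) - 4 * i + 1) + 2 ^ s) : ℤ) + -8 * (i : ℤ) * u) % (128 * P * Λ : ℕ) <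
      (16 * P : ℕ))
  have h3 : #(T.filter fun v => ¬Crit (φ v) s) ≤ ∑ i ∈ range (52 * P), ∑ ρ ∈ badRes s L, c i ρ := by
    refine le_trans (card_le_card (t := (range (52 * P)).biUnion fun i => (badRes s L).biUnion
      fun ρ => T.filter fun v => (v.2 : ℤ) = ((ρ - (i * (8 * (24 * P) - 4 * i + 1) + 2 ^ s) : ℤ) +
        -8 * (i : ℤ) * v.1) % (128 * P * Λ : ℕ)) fun v hv => ?_)
      (card_biUnion_le.trans (sum_le_sum fun i _ => card_biUnion_le.trans (sum_le_sum fun ρ _ => ?_)))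
    · obtain ⟨h3, h4⟩ := mem_filter.mp hv
      have h5 := mem_product.mp h3
      simp only [mem_range] at h5
      have h6 := mt (crit_of (by omega)) h4
      push Not at h6
      obtain ⟨i, w, e1, e2, e3, e4, e5⟩ := h6
      obtain ⟨ρ, e6, u, e7⟩ := mem_badRes s L w e3 (e4.trans (by rw [hs]; nlinarith)) e5
      simp only [mem_biUnion, mem_range, mem_filter]
      refine ⟨i, by omega, ρ, e6, h3, ?_⟩
      have e8 : v.2 < 128 * P * Λ := by nlinarith
      rw [← Int.emod_eq_of_lt (a := v.2) (b := (128 * P * Λ : ℕ)) (by omega) (by omega),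
        Int.emod_eq_emod_iff_emod_sub_eq_zero]
      apply Int.emod_eq_zero_of_dvd
      refine ⟨u, ?_⟩
      rw [← hs]
      rw [← hΛ] at e7
      zify at e7
      push_cast at e2 ⊢
      linear_combination e7 - e2
    · refine card_le_card_of_injOn Prod.fst (fun v hv => ?_) fun v hv v' hv' h => ?_
      · simp only [coe_filter, Set.mem_setOf_eq, T, mem_product, mem_range] at hv ⊢
        exact ⟨hv.1.1, by omega⟩
      · simp only [coe_filter, Set.mem_setOf_eq] at hv hv'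
        refine Prod.ext h ?_
        have := hv.2
        rw [h, ← hv'.2] at this
        exact_mod_cast this
  have hΛ' : (1 : ℝ) ≤ Λ := by exact_mod_cast hΛ0
  have h4 : (#(badRes s L) : ℝ) ≤ 33 / 16 * Λ := by
    have : (16 * #(badRes s L) : ℕ) ≤ 33 * Λ := by have := card_badRes s L; omega
    have : (16 * #(badRes s L) : ℝ) ≤ 33 * Λ := by exact_mod_cast this
    linarith
  have h5 : ∀ ρ, (∑ i ∈ range (52 * P), c i ρ : ℝ) ≤
      52 * P * (73 / 256 * P / Λ) + 2 ^ 35 * Λ ^ 3 * (2 * P) := by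
    intro ρ
    rw [← sum_filter_add_sum_filter_not _ fun i : ℕ => ∀ q : ℕ, 0 < q → q < 128 * Λ → ∀ p : ℤ,
      2 ^ 18 * Λ ^ 2 ≤ (q * (-8 * (i : ℤ)) - p * (128 * P * Λ)).natAbs]
    refine add_le_add ((sum_le_card_nsmul _ _ _ fun i hi =>
      prog_good _ _ P Λ hΛ0 hP (mem_filter.mp hi).2).trans ?_)
      ((sum_le_card_nsmul _ _ (2 * P : ℝ) fun i _ => ?_).trans ?_)
    · rw [nsmul_eq_mul]
      gcongr
      exact_mod_cast (card_filter_le _ _).trans (card_range _).le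
    · exact_mod_cast (card_filter_le _ _).trans (card_range _).le
    · rw [nsmul_eq_mul]
      gcongr
      exact_mod_cast bad_count P Λ hΛ0 hP
  have h6 : #(T.filter fun v => ¬Crit (φ v) s) ≤ 31 * P ^ 2 := by
    have h6 : (#(T.filter fun v => ¬Crit (φ v) s) : ℝ) ≤ _ := Nat.cast_le.mpr h3
    push_cast at h6
    rw [sum_comm] at h6
    have h7 := h6.trans (sum_le_card_nsmul _ _ _ fun ρ _ => h5 ρ)
    have h8 : (2 : ℝ) ^ 39 * Λ ^ 4 ≤ P := by exact_mod_cast h2
    have h9 : (0 : ℝ) ≤ P := Nat.cast_nonneg _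
    have : (#(T.filter fun v => ¬Crit (φ v) s) : ℝ) ≤ 31 * P ^ 2 :=
      calc _ ≤ _ := h7
        _ ≤ 33 / 16 * Λ * (52 * P * (73 / 256 * P / Λ) + 2 ^ 35 * Λ ^ 3 * (2 * P)) := by
          rw [nsmul_eq_mul]; gcongr
        _ = 33 * 52 * 73 / (16 * 256) * P ^ 2 + 33 / 128 * (2 ^ 39 * Λ ^ 4) * P := by
          field_simp; ring
        _ ≤ _ := by nlinarith
    exact_mod_cast this
  have h7 := card_filter_add_card_filter_not (s := T) fun v => Crit (φ v) s
  have h8 : #T = 32 * P ^ 2 := by simp [T]; ring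
  refine le_trans (by omega : _ ≤ #(T.filter fun v => Crit (φ v) s))
    (card_le_card_of_injOn φ (fun v hv => ?_) fun v hv v' hv' h => ?_)
  · simp only [coe_filter, Set.mem_setOf_eq, T, mem_product, mem_range, φ] at hv ⊢
    refine ⟨?_, by omega, hv.2⟩
    rw [hs]; nlinarith [hv.1.1, hv.1.2]
  · simp only [coe_filter, Set.mem_setOf_eq, T, mem_product, mem_range, φ] at hv hv' h
    have : v.1 = v'.1 := by
      rcases lt_trichotomy v.1 v'.1 with h1 | h1 | h1
      · nlinarith [hv.1.2]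
      · exact h1
      · nlinarith [hv'.1.2]
    rw [this] at h
    exact Prod.ext this (by omega)

theorem exists_invol {n s : ℕ} (hs : 0 < s) (h : 2 * 2 ^ s ≤ n) (hc : Crit n s) :
    ∃ x : alternatingGroup (Fin n), orderOf x = 2 ∧ Nonvanishing x := by
  obtain ⟨g, hg⟩ := (Equiv.Perm.exists_with_cycleType_iff (Fin n)
    (m := Multiset.replicate (2 ^ s) 2)).mpr ⟨by simpa [mul_comm] using h, fun a ha =>
      (Multiset.eq_of_mem_replicate ha).ge⟩
  have h1 : g ∈ alternatingGroup (Fin n) := by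
    rw [Equiv.Perm.mem_alternatingGroup, Equiv.Perm.sign_of_cycleType, hg]
    apply Even.neg_one_pow
    simp [Nat.even_add, Nat.even_pow, hs.ne']
  refine ⟨⟨g, h1⟩, ?_, crit_alt hc _ hg⟩
  rw [← Subgroup.orderOf_coe]
  apply orderOf_eq_prime
  · exact Equiv.ext (invol_of_type hg)
  · intro h2
    simp only at h2
    rw [h2, Equiv.Perm.cycleType_one, eq_comm, ← Multiset.card_eq_zero,
      Multiset.card_replicate] at hg
    exact absurd hg (by positivity)

theorem density (N : ℕ) (hN : 2 ^ 221 ≤ N) : N ≤ 2 ^ 15 *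
    {n | n ≤ N ∧ 5 ≤ n ∧ ∃ x : alternatingGroup (Fin n), orderOf x = 2 ∧ Nonvanishing x}.ncard := by
  classical
  obtain ⟨r, h1, h2⟩ : ∃ r, 2 ^ 13 * (2 ^ r) ^ 2 ≤ N ∧ N < 2 ^ 15 * (2 ^ r) ^ 2 := by
    have h1 := Nat.pow_log_le_self 4 (x := N / 2 ^ 13) (by omega)
    have h2 := Nat.lt_pow_succ_log_self (b := 4) (by norm_num) (N / 2 ^ 13)
    refine ⟨Nat.log 4 (N / 2 ^ 13), ?_⟩
    rw [← pow_mul, mul_comm _ 2, pow_mul]
    rw [pow_succ] at h2
    norm_num at *
    omega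
  have h3 : 104 ≤ r := by
    have := hN.trans_lt h2
    rw [← pow_mul, ← pow_add, Nat.pow_lt_pow_iff_right (by norm_num)] at this
    omega
  have h4 : ∀ t, 13 ≤ t → 256 * (t + 2) ≤ 2 ^ t := by
    intro t ht
    induction t, ht using Nat.le_induction with
    | base => norm_num
    | succ t _ ih => rw [pow_succ]; omega
  have h5 := many (r + 7) (r / 8) (2 ^ r) (by ring) (by have := h4 (r / 8) (by omega); omega) (by
    rw [← pow_mul, ← pow_add]; exact Nat.pow_le_pow_right (by norm_num) (by omega))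
  refine h2.le.trans (Nat.mul_le_mul_left _ (h5.trans ?_))
  rw [← Set.ncard_coe_finset]
  refine Set.ncard_le_ncard (fun n hn => ?_) ((Set.finite_le_nat N).subset fun n hn => hn.1)
  simp only [coe_filter, mem_range, Set.mem_setOf_eq] at hn ⊢
  have : 0 < 2 ^ r := by positivity
  exact ⟨by omega, by omega, exists_invol (by omega) (by rw [pow_add]; omega) hn.2.2⟩

end Pool.Agent.P.MP_eccc2e_al
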